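import Mathlib
set_option autoImplicit false
namespace Pool.Agent.L1Q
open Complex

/-- the thresholds `θ_j` -/
noncomputable def th (j : ℕ) : ℝ := (1 / 100) ^ (j + 2) * (1 / 10 ^ 6) ^ (48 * 2 ^ j)

theorem th_pos (j : ℕ) : 0 < th j := by unfold th; positivity

theorem th_succ_le (j : ℕ) : th (j + 1) ≤ th j := by
  unfold th
  gcongr ?_ * ?_
  · exact pow_le_pow_of_le_one (by norm_num) (by norm_num) (by omega)
  · refine pow_le_pow_of_le_one (by norm_num) (by norm_num) ?_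
    gcongr
    · norm_num
    · omega

theorem th_anti {i j : ℕ} (h : i ≤ j) : th j ≤ th i := by
  induction h with
  | refl => exact le_refl _
  | step _ ih => exact (th_succ_le _).trans ih

theorem th_le (j : ℕ) : th j ≤ (1 / 100) ^ j * (1 / 10 ^ 6) := by
  unfold th
  have h1 : (1 / 10 ^ 6 : ℝ) ^ (48 * 2 ^ j) ≤ (1 / 10 ^ 6 : ℝ) ^ 1 := by
    refine pow_le_pow_of_le_one (by norm_num) (by norm_num) ?_
    have := Nat.one_le_two_pow (n := j)
    omega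
  have h2 : (1 / 100 : ℝ) ^ (j + 2) ≤ (1 / 100) ^ j :=
    pow_le_pow_of_le_one (by norm_num) (by norm_num) (by omega)
  rw [pow_one] at h1
  gcongr

/-- standing hypotheses on the exponents -/
structure Data (y N : ℕ → ℕ) (K : ℕ) : Prop where
  hy : ∀ j, 10 ^ 6 ≤ y j
  hyθ : ∀ j, (1 : ℝ) / y j ≤ th j / (1000 * (j + 1))
  hNK : 1 ≤ N K
  hN : ∀ i, i < K → N i = N (i + 1) * (y (i + 1)) ^ 2

/-- tails of the sum -/
noncomputable def Ft (N : ℕ → ℕ) (K j : ℕ) (v : ℂ) : ℂ :=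
  ∑ i ∈ Finset.Ico j (K + 1), ((1 / 100 : ℝ) : ℂ) ^ i * v ^ (N i)

variable {y N : ℕ → ℕ} {K : ℕ}

theorem Data.yR (h : Data y N K) (j : ℕ) : (10 : ℝ) ^ 6 ≤ y j := by exact_mod_cast h.hy j

theorem Data.ypos (h : Data y N K) (j : ℕ) : (0 : ℝ) < y j := lt_of_lt_of_le (by norm_num) (h.yR j)

theorem Data.dvd_succ (h : Data y N K) {i : ℕ} (hi : i < K) : N (i + 1) ∣ N i :=
  ⟨_, h.hN i hi⟩

theorem Data.dvd (h : Data y N K) {i j : ℕ} (hij : i ≤ j) (hj : j ≤ K) : N j ∣ N i := by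
  induction hij with
  | refl => exact dvd_refl _
  | step hij' ih => exact (h.dvd_succ (by omega)).trans (ih (by omega))

theorem Data.pos (h : Data y N K) {i : ℕ} (hi : i ≤ K) : 0 < N i := by
  have key : ∀ d i, i + d = K → 0 < N i := by
    intro d
    induction d with
    | zero => intro i hi; have := h.hNK; simp at hi; subst hi; omega
    | succ d ih =>
      intro i hi
      rw [h.hN i (by omega)]
      have h1 := ih (i + 1) (by omega)
      have h2 := h.hy (i + 1)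
      have h3 : 0 < y (i + 1) := by omega
      positivity
  exact key (K - i) i (by omega)

theorem Data.anti (h : Data y N K) {i j : ℕ} (hij : i ≤ j) (hj : j ≤ K) : N j ≤ N i :=
  Nat.le_of_dvd (h.pos (by omega)) (h.dvd hij hj)

theorem Data.posR (h : Data y N K) {i : ℕ} (hi : i ≤ K) : (0 : ℝ) < N i := by
  exact_mod_cast h.pos hi

/-- `N i * y_{j+1}^2 ≤ N j` for `i > j` -/
theorem Data.mul_le (h : Data y N K) {i j : ℕ} (hij : j < i) (hi : i ≤ K) :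
    (N i : ℝ) * (y (j + 1)) ^ 2 ≤ N j := by
  have h1 := h.hN j (by omega)
  have h2 := h.anti (i := j + 1) (j := i) (by omega) hi
  rw [h1]
  push_cast
  have : (N i : ℝ) ≤ N (j + 1) := by exact_mod_cast h2
  gcongr

/-- radii -/
noncomputable def rr (N y : ℕ → ℕ) (j : ℕ) : ℝ := Real.exp (-1 / (N j * y j))
noncomputable def RR (N : ℕ → ℕ) (j : ℕ) : ℝ := Real.exp (-1 / N j)

theorem rr_pos (j : ℕ) : 0 < rr N y j := Real.exp_pos _
theorem RR_pos (j : ℕ) : 0 < RR N j := Real.exp_pos _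
theorem rr_le_one (j : ℕ) : rr N y j ≤ 1 := by
  unfold rr
  rw [Real.exp_le_one_iff]
  exact div_nonpos_of_nonpos_of_nonneg (by norm_num) (by positivity)

theorem rr_pow (h : Data y N K) {j : ℕ} (hj : j ≤ K) : rr N y j ^ (N j) = Real.exp (-1 / y j) := by
  have h1 := (h.posR hj).ne'
  have h2 := (h.ypos j).ne'
  unfold rr
  rw [← Real.exp_nat_mul]
  congr 1
  field_simp

theorem rr_pow_ge (h : Data y N K) {j : ℕ} (hj : j ≤ K) : 9 / 10 ≤ rr N y j ^ (N j) := by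
  rw [rr_pow h hj]
  have h1 := Real.add_one_le_exp (-1 / (y j : ℝ))
  have h2 : (1 : ℝ) / y j ≤ 1 / 10 ^ 6 := one_div_le_one_div_of_le (by norm_num) (h.yR j)
  have h3 : -1 / (y j : ℝ) = - (1 / y j) := by ring
  rw [h3] at h1 ⊢
  linarith [h1]

theorem rr_pow_pred (h : Data y N K) {j : ℕ} (hj : j < K) :
    rr N y (j + 1) ^ (N j) = Real.exp (-(y (j + 1) : ℝ)) := by
  have h1 := (h.posR (i := j + 1) (by omega)).ne'
  have h2 := (h.ypos (j + 1)).ne'
  unfold rr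
  rw [← Real.exp_nat_mul, h.hN j hj]
  congr 1
  push_cast
  field_simp

theorem exp_neg_le_inv {x : ℝ} (hx : 0 < x) : Real.exp (-x) ≤ 1 / x := by
  rw [Real.exp_neg, ← one_div]
  apply one_div_le_one_div_of_le hx
  linarith [Real.add_one_le_exp x]

theorem RR_pow (h : Data y N K) {j : ℕ} (hj : j ≤ K) : RR N j ^ (N j) = Real.exp (-1) := by
  have h1 := (h.posR hj).ne'
  unfold RR
  rw [← Real.exp_nat_mul]
  congr 1
  field_simp

theorem RR_lt_rr (h : Data y N K) {j : ℕ} (hj : j ≤ K) : RR N j < rr N y j := by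
  unfold RR rr
  rw [Real.exp_lt_exp]
  have h1 := h.posR hj
  have h2 := h.yR j
  have h3 : (N j : ℝ) < N j * y j := by nlinarith
  rw [div_lt_div_iff₀ h1 (by positivity)]
  linarith

theorem rr_lt_rr (h : Data y N K) {j : ℕ} (hj : j < K) : rr N y (j + 1) < rr N y j := by
  unfold rr
  rw [Real.exp_lt_exp]
  have h1 := h.posR (i := j + 1) (by omega)
  have h2 := h.yR (j + 1)
  have h2' := h.yR j
  have h3 := h.posR (i := j) (by omega)
  have h4 : (N (j + 1) : ℝ) * y (j + 1) < N j * y j := by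
    rw [h.hN j hj]
    push_cast
    have h5 : (1 : ℝ) < y (j + 1) * y j := by nlinarith
    calc (N (j + 1) : ℝ) * y (j + 1) < (N (j + 1) : ℝ) * y (j + 1) * (y (j + 1) * y j) := by
          have : 0 < (N (j + 1) : ℝ) * y (j + 1) := mul_pos h1 (h.ypos _)
          nlinarith
      _ = _ := by ring
  have h6 : 0 < (N (j + 1) : ℝ) * y (j + 1) := mul_pos h1 (h.ypos _)
  have h7 : 0 < (N j : ℝ) * y j := mul_pos h3 (h.ypos _)
  rw [div_lt_div_iff₀ h6 h7]
  linarith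

theorem sum_pow_le (j n : ℕ) : ∑ i ∈ Finset.Ico j n, (1 / 100 : ℝ) ^ i ≤ (1 / 100) ^ j * (100 / 99) := by
  have := geom_sum_Ico_le_of_lt_one (x := (1 / 100 : ℝ)) (m := j) (n := n) (by norm_num) (by norm_num)
  refine this.trans (le_of_eq ?_)
  norm_num
  ring

theorem sum_mul_le (j n : ℕ) (C : ℝ) (g : ℕ → ℂ) (hC : 0 ≤ C)
    (hg : ∀ i, j ≤ i → i < n → ‖g i‖ ≤ C) :
    ‖∑ i ∈ Finset.Ico j n, ((1 / 100 : ℝ) : ℂ) ^ i * g i‖ ≤ (1 / 100) ^ j * (100 / 99) * C := by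
  refine (norm_sum_le _ _).trans ?_
  calc ∑ i ∈ Finset.Ico j n, ‖((1 / 100 : ℝ) : ℂ) ^ i * g i‖
      ≤ ∑ i ∈ Finset.Ico j n, (1 / 100 : ℝ) ^ i * C := by
        apply Finset.sum_le_sum
        intro i hi
        rw [Finset.mem_Ico] at hi
        rw [norm_mul, norm_pow, Complex.norm_real, Real.norm_of_nonneg (by norm_num)]
        have := hg i hi.1 hi.2
        gcongr
    _ = (∑ i ∈ Finset.Ico j n, (1 / 100 : ℝ) ^ i) * C := by rw [Finset.sum_mul]
    _ ≤ _ := by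
        have := sum_pow_le j n
        gcongr

theorem Ft_le (K j : ℕ) {v : ℂ} (hv : ‖v‖ ≤ 1) : ‖Ft N K j v‖ ≤ (1 / 100) ^ j * (100 / 99) := by
  have := sum_mul_le j (K + 1) 1 (fun i => v ^ (N i)) (by norm_num) (by
    intro i _ _
    rw [norm_pow]
    exact pow_le_one₀ (norm_nonneg _) hv)
  simpa [Ft] using this

theorem Ft_succ {K j : ℕ} (hj : j ≤ K) (v : ℂ) :
    Ft N K j v = ((1 / 100 : ℝ) : ℂ) ^ j * v ^ (N j) + Ft N K (j + 1) v := by
  unfold Ft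
  rw [Finset.sum_eq_sum_Ico_succ_bot (by omega)]

theorem Ft_ge {K j : ℕ} (hj : j ≤ K) {v : ℂ} (hv : ‖v‖ ≤ 1) (hv2 : Real.exp (-1) ≤ ‖v‖ ^ (N j)) :
    (1 / 100) ^ j * (357 / 1000) ≤ ‖Ft N K j v‖ := by
  rw [Ft_succ hj]
  have h1 := Ft_le (N := N) K (j + 1) hv
  have h2 : ‖((1 / 100 : ℝ) : ℂ) ^ j * v ^ (N j)‖ = (1 / 100) ^ j * ‖v‖ ^ (N j) := by
    rw [norm_mul, norm_pow, Complex.norm_real, Real.norm_of_nonneg (by norm_num), norm_pow]
  have h3 := norm_sub_le_norm_add (((1 / 100 : ℝ) : ℂ) ^ j * v ^ (N j)) (Ft N K (j + 1) v)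
  rw [h2] at h3
  have h4 : (1 / 100 : ℝ) ^ j * Real.exp (-1) ≤ (1 / 100) ^ j * ‖v‖ ^ (N j) := by gcongr
  have h5 := Real.exp_neg_one_gt_d9
  have h6 : (1 / 100 : ℝ) ^ j * (0.3678) ≤ (1 / 100) ^ j * Real.exp (-1) := by
    have : (0.3678 : ℝ) ≤ Real.exp (-1) := by linarith
    gcongr
  have h7 : (1 / 100 : ℝ) ^ (j + 1) * (100 / 99) = (1 / 100) ^ j * (1 / 99) := by
    rw [pow_succ]; ring
  rw [h7] at h1
  have h8 : (0 : ℝ) < (1 / 100) ^ j := by positivity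
  nlinarith

/-- head bound -/
theorem head_le (h : Data y N K) {j : ℕ} (hj : j < K) {v : ℂ} (hv : ‖v‖ ≤ rr N y (j + 1)) :
    ‖Ft N K 0 v - Ft N K (j + 1) v‖ ≤ (100 / 99) / y (j + 1) := by
  have h1 : Ft N K 0 v - Ft N K (j + 1) v
      = ∑ i ∈ Finset.Ico 0 (j + 1), ((1 / 100 : ℝ) : ℂ) ^ i * v ^ (N i) := by
    unfold Ft
    rw [← Finset.sum_Ico_consecutive _ (Nat.zero_le (j + 1)) (by omega : j + 1 ≤ K + 1)]
    ring
  rw [h1]
  have hv1 : ‖v‖ ≤ 1 := hv.trans (rr_le_one _)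
  have h2 := sum_mul_le 0 (j + 1) (1 / y (j + 1)) (fun i => v ^ (N i)) (by positivity) (by
    intro i _ hi
    rw [norm_pow]
    have h3 : N j ≤ N i := h.anti (by omega) (by omega)
    calc ‖v‖ ^ (N i) ≤ ‖v‖ ^ (N j) := pow_le_pow_of_le_one (norm_nonneg _) hv1 h3
      _ ≤ rr N y (j + 1) ^ (N j) := by gcongr
      _ = Real.exp (-(y (j + 1) : ℝ)) := rr_pow_pred h hj
      _ ≤ 1 / y (j + 1) := exp_neg_le_inv (h.ypos _))
  refine h2.trans (le_of_eq ?_)
  rw [pow_zero]; ring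

theorem pow_zero_le (h : Data y N K) {j : ℕ} (hj : j < K) {v : ℂ} (hv : ‖v‖ ≤ rr N y (j + 1)) :
    ‖v‖ ^ (N 0) ≤ 1 / y (j + 1) := by
  have hv1 : ‖v‖ ≤ 1 := hv.trans (rr_le_one _)
  calc ‖v‖ ^ (N 0) ≤ ‖v‖ ^ (N j) := pow_le_pow_of_le_one (norm_nonneg _) hv1 (h.anti (by omega) (by omega))
      _ ≤ rr N y (j + 1) ^ (N j) := by gcongr
      _ = Real.exp (-(y (j + 1) : ℝ)) := rr_pow_pred h hj
      _ ≤ 1 / y (j + 1) := exp_neg_le_inv (h.ypos _)

/-- local constancy of the tail -/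
theorem tail_local (h : Data y N K) {j : ℕ} (hj : j < K) {v u : ℂ} (hv : ‖v‖ ≤ 1) (hu : ‖u‖ ≤ 1) :
    ‖Ft N K (j + 1) (v * exp (-u / N j)) - Ft N K (j + 1) v‖ ≤ (1 / 100) ^ j / 80000 := by
  have hNj := h.posR (i := j) (by omega)
  have hNjC : (N j : ℂ) ≠ 0 := by exact_mod_cast hNj.ne'
  have h1 : Ft N K (j + 1) (v * exp (-u / N j)) - Ft N K (j + 1) v
      = ∑ i ∈ Finset.Ico (j + 1) (K + 1), ((1 / 100 : ℝ) : ℂ) ^ i *
        (v ^ (N i) * (exp (-u / N j) ^ (N i) - 1)) := by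
    unfold Ft
    rw [← Finset.sum_sub_distrib]
    apply Finset.sum_congr rfl
    intro i _
    rw [mul_pow]; ring
  rw [h1]
  have h2 := sum_mul_le (j + 1) (K + 1) (2 / (y (j + 1)) ^ 2)
    (fun i => v ^ (N i) * (exp (-u / N j) ^ (N i) - 1)) (by positivity) (by
    intro i hi1 hi2
    have hmul := h.mul_le (i := i) (j := j) (by omega) (by omega)
    have hy0 := h.ypos (j + 1)
    have e1 : exp (-u / N j) ^ (N i) = exp (-u * (N i / N j)) := by
      rw [← Complex.exp_nat_mul]; congr 1; field_simp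
    have e2 : ‖-u * ((N i : ℂ) / N j)‖ ≤ 1 / (y (j + 1)) ^ 2 := by
      rw [norm_mul, norm_neg, norm_div, Complex.norm_natCast, Complex.norm_natCast]
      have : (N i : ℝ) / N j ≤ 1 / (y (j + 1)) ^ 2 := by
        rw [div_le_div_iff₀ hNj (by positivity)]
        linarith
      calc ‖u‖ * ((N i : ℝ) / N j) ≤ 1 * (1 / (y (j + 1)) ^ 2) := by gcongr
        _ = _ := one_mul _
    have e3 : (1 : ℝ) / (y (j + 1)) ^ 2 ≤ 1 := by
      rw [div_le_one (by positivity)]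
      have := h.yR (j + 1)
      nlinarith
    have e4 := Complex.norm_exp_sub_one_le (e2.trans e3)
    rw [norm_mul, e1, norm_pow]
    have e5 : ‖v‖ ^ (N i) ≤ 1 := pow_le_one₀ (norm_nonneg _) hv
    calc ‖v‖ ^ (N i) * ‖exp (-u * ((N i : ℂ) / N j)) - 1‖ ≤ 1 * (2 * (1 / (y (j + 1)) ^ 2)) := by
          gcongr
          exact e4.trans (by gcongr)
      _ = 2 / (y (j + 1)) ^ 2 := by ring)
  refine h2.trans ?_
  have h3 : (2 : ℝ) / (y (j + 1)) ^ 2 ≤ 1 / 10 ^ 6 := by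
    have := h.yR (j + 1)
    rw [div_le_div_iff₀ (by positivity) (by norm_num)]
    nlinarith
  calc (1 / 100 : ℝ) ^ (j + 1) * (100 / 99) * (2 / (y (j + 1)) ^ 2)
      ≤ (1 / 100 : ℝ) ^ (j + 1) * (100 / 99) * (1 / 10 ^ 6) := by gcongr
    _ ≤ _ := by
        rw [pow_succ]
        have : (0 : ℝ) < (1 / 100) ^ j := by positivity
        nlinarith

/-- rotation bound -/
theorem rot_le (h : Data y N K) {k : ℕ} (hk : k < K) {v : ℂ} (hv : ‖v‖ ≤ 1) :
    ‖Ft N K 0 (exp (2 * Real.pi * I / N k) * v) - Ft N K 0 v‖ ≤ 1 / y (k + 1) := by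
  have hNk := h.posR (i := k) (by omega)
  have hNkC : (N k : ℂ) ≠ 0 := by exact_mod_cast hNk.ne'
  set ω : ℂ := exp (2 * Real.pi * I / N k) with hω
  have hωk : ω ^ (N k) = 1 := by
    rw [hω, ← Complex.exp_nat_mul]
    have : (N k : ℂ) * (2 * Real.pi * I / N k) = 2 * Real.pi * I := by field_simp
    rw [this, Complex.exp_two_pi_mul_I]
  have hsplit : ∀ w : ℂ, Ft N K 0 w = ∑ i ∈ Finset.Ico 0 (k + 1), ((1 / 100 : ℝ) : ℂ) ^ i * w ^ (N i)
      + ∑ i ∈ Finset.Ico (k + 1) (K + 1), ((1 / 100 : ℝ) : ℂ) ^ i * w ^ (N i) := by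
    intro w
    unfold Ft
    rw [Finset.sum_Ico_consecutive _ (Nat.zero_le (k + 1)) (by omega : k + 1 ≤ K + 1)]
  have hlow : ∑ i ∈ Finset.Ico 0 (k + 1), ((1 / 100 : ℝ) : ℂ) ^ i * (ω * v) ^ (N i)
      = ∑ i ∈ Finset.Ico 0 (k + 1), ((1 / 100 : ℝ) : ℂ) ^ i * v ^ (N i) := by
    apply Finset.sum_congr rfl
    intro i hi
    rw [Finset.mem_Ico] at hi
    obtain ⟨d, hd⟩ := h.dvd (i := i) (j := k) (by omega) (by omega)
    rw [mul_pow, hd, pow_mul ω, hωk, one_pow, one_mul]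
  have h1 : Ft N K 0 (ω * v) - Ft N K 0 v
      = ∑ i ∈ Finset.Ico (k + 1) (K + 1), ((1 / 100 : ℝ) : ℂ) ^ i * ((ω ^ (N i) - 1) * v ^ (N i)) := by
    rw [hsplit, hsplit v, hlow]
    rw [add_sub_add_left_eq_sub, ← Finset.sum_sub_distrib]
    apply Finset.sum_congr rfl
    intro i _
    rw [mul_pow]; ring
  rw [h1]
  have hy0 := h.ypos (k + 1)
  have h2 := sum_mul_le (k + 1) (K + 1) (20 / (y (k + 1)) ^ 2)
    (fun i => (ω ^ (N i) - 1) * v ^ (N i)) (by positivity) (by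
    intro i hi1 hi2
    have hmul := h.mul_le (i := i) (j := k) (by omega) (by omega)
    have e1 : ω ^ (N i) = exp (2 * Real.pi * I * (N i / N k)) := by
      rw [hω, ← Complex.exp_nat_mul]; congr 1; field_simp
    have e0 : (N i : ℝ) / N k ≤ 1 / (y (k + 1)) ^ 2 := by
      rw [div_le_div_iff₀ hNk (by positivity)]
      linarith
    have e2 : ‖2 * Real.pi * I * ((N i : ℂ) / N k)‖ ≤ 10 / (y (k + 1)) ^ 2 := by
      rw [norm_mul, norm_mul, norm_mul, Complex.norm_I, norm_div, Complex.norm_natCast,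
        Complex.norm_natCast, Complex.norm_real, Real.norm_of_nonneg Real.pi_pos.le]
      have h4 : Real.pi ≤ 4 := Real.pi_le_four
      have h5 : ‖(2 : ℂ)‖ = 2 := by norm_num
      rw [h5]
      calc 2 * Real.pi * 1 * ((N i : ℝ) / N k) ≤ 2 * Real.pi * 1 * (1 / (y (k + 1)) ^ 2) := by gcongr
        _ ≤ 10 * (1 / (y (k + 1)) ^ 2) := by
            have : 2 * Real.pi * 1 ≤ 10 := by linarith
            gcongr
        _ = _ := by ring
    have e3 : (10 : ℝ) / (y (k + 1)) ^ 2 ≤ 1 := by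
      rw [div_le_one (by positivity)]
      have := h.yR (k + 1)
      nlinarith
    have e4 := Complex.norm_exp_sub_one_le (e2.trans e3)
    rw [norm_mul, e1, norm_pow]
    have e5 : ‖v‖ ^ (N i) ≤ 1 := pow_le_one₀ (norm_nonneg _) hv
    calc ‖exp (2 * Real.pi * I * ((N i : ℂ) / N k)) - 1‖ * ‖v‖ ^ (N i)
        ≤ (2 * (10 / (y (k + 1)) ^ 2)) * 1 := by
          gcongr
          exact e4.trans (by gcongr)
      _ = 20 / (y (k + 1)) ^ 2 := by ring)
  refine h2.trans ?_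
  have h3 : (1 / 100 : ℝ) ^ (k + 1) ≤ 1 / 100 := by
    calc (1 / 100 : ℝ) ^ (k + 1) ≤ (1 / 100) ^ 1 :=
          pow_le_pow_of_le_one (by norm_num) (by norm_num) (by omega)
      _ = _ := pow_one _
  calc (1 / 100 : ℝ) ^ (k + 1) * (100 / 99) * (20 / (y (k + 1)) ^ 2)
      ≤ (1 / 100) * (100 / 99) * (20 / (y (k + 1)) ^ 2) := by gcongr
    _ = (20 / 99) / (y (k + 1) : ℝ) * (1 / (y (k + 1) : ℝ)) := by field_simp
    _ ≤ 1 * (1 / (y (k + 1) : ℝ)) := by
        have : (20 / 99 : ℝ) / (y (k + 1) : ℝ) ≤ 1 := by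
          rw [div_le_one hy0]
          linarith [h.yR (k + 1)]
        gcongr
    _ = _ := one_mul _

end Pool.Agent.L1Q
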