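import Mathlib
set_option autoImplicit false
namespace Pool.Agent.L1Q
open Complex

/-- C: from one circle to the next one by the maximum principle. -/
theorem circle_step (p q : ℂ → ℂ) (hp : Differentiable ℂ p) (hq : Differentiable ℂ q) (ω : ℂ)
    (μ b : ℕ) (R ρ' ρ : ℝ) (hR0 : 0 < R) (h1 : R < ρ') (h2 : ρ' < ρ)
    (θ κ κ' B₁ B₃ b₃ b₄ : ℝ) (hθ : 0 < θ) (hθb : θ < b₃) (hκ : 0 < κ) (hκ' : 0 < κ')
    (hB₃ : 0 < B₃) (hb₄ : 0 < b₄)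
    (hfr : ∀ v : ℂ, R ≤ ‖v‖ → ‖v‖ ≤ ρ → ‖p v * q v‖ = θ → ‖(p (ω * v) - p v) * q v‖ ≤ θ / 4)
    (hout : ∀ v : ℂ, ‖v‖ = ρ → ‖(p (ω * v) - p v) * q v‖ ≤ κ * ‖p v * q v‖ ∧ ‖p v * q v‖ ≤ B₁)
    (hmid : ∀ v : ℂ, ‖v‖ = ρ' → b₃ ≤ ‖p v * q v‖ ∧ ‖p v * q v‖ ≤ B₃)
    (hin : ∀ v : ℂ, ‖v‖ = R → b₄ ≤ ‖p v * q v‖)
    (N1 : (1 / 4) ^ (μ + 1) * θ * ρ ^ b ≤ κ' ^ (μ + 1) * b₃ * ρ' ^ b)
    (N2 : κ ^ (μ + 1) * B₁ * ρ ^ b ≤ κ' ^ (μ + 1) * b₃ * ρ' ^ b)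
    (N3 : B₃ ^ (μ + 1) * R ^ b < b₄ ^ μ * b₃ * ρ' ^ b) :
    ∀ v : ℂ, ‖v‖ = ρ' → ‖(p (ω * v) - p v) * q v‖ ≤ κ' * ‖p v * q v‖ := by
  have hρ'0 : 0 < ρ' := hR0.trans h1
  have hρ0 : 0 < ρ := hρ'0.trans h2
  have hb₃ : 0 < b₃ := hθ.trans hθb
  set W : ℂ → ℂ := fun v => (p (ω * v) - p v) * q v with hW
  set f : ℂ → ℂ := fun v => p v * q v with hf
  have hWd : Differentiable ℂ W := by
    have : Differentiable ℂ fun v : ℂ => p (ω * v) := hp.comp (differentiable_id.const_mul ω)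
    exact (this.sub hp).mul hq
  have hfd : Differentiable ℂ f := hp.mul hq
  change ∀ v : ℂ, ‖v‖ = ρ' → ‖W v‖ ≤ κ' * ‖f v‖
  -- maximal point
  have hcomp : IsCompact (Metric.sphere (0:ℂ) ρ') := isCompact_sphere _ _
  have hne : (Metric.sphere (0:ℂ) ρ').Nonempty := NormedSpace.sphere_nonempty.2 hρ'0.le
  have hfne : ∀ v ∈ Metric.sphere (0:ℂ) ρ', ‖f v‖ ≠ 0 := by
    intro v hv
    have := (hmid v (by simpa using hv)).1
    exact (hb₃.trans_le this).ne'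
  have hcont : ContinuousOn (fun v => ‖W v‖ / ‖f v‖) (Metric.sphere (0:ℂ) ρ') :=
    (hWd.continuous.norm.continuousOn).div (hfd.continuous.norm.continuousOn) hfne
  obtain ⟨v₁, hv₁, hmax⟩ := hcomp.exists_isMaxOn hne hcont
  have hv₁n : ‖v₁‖ = ρ' := by simpa using hv₁
  set A : ℝ := ‖W v₁‖ / ‖f v₁‖ with hA
  have hWA : ∀ v : ℂ, ‖v‖ = ρ' → ‖W v‖ ≤ A * ‖f v‖ := by
    intro v hv
    have h3 : ‖W v‖ / ‖f v‖ ≤ A := hmax (by simpa using hv)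
    have h4 : 0 < ‖f v‖ := hb₃.trans_le (hmid v hv).1
    rwa [div_le_iff₀ h4] at h3
  by_contra hcon
  push Not at hcon
  obtain ⟨v₂, hv₂, hv₂'⟩ := hcon
  have hAκ : κ' < A := by
    have h3 := hWA v₂ hv₂
    have h4 : 0 < ‖f v₂‖ := hb₃.trans_le (hmid v₂ hv₂).1
    have h5 : κ' * ‖f v₂‖ < A * ‖f v₂‖ := hv₂'.trans_le h3
    exact lt_of_mul_lt_mul_right h5 h4.le
  have hA0 : 0 < A := hκ'.trans hAκ
  -- W on the closed disc of radius ρ'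
  have hWdisc : ∀ v : ℂ, ‖v‖ ≤ ρ' → ‖W v‖ ≤ A * B₃ := by
    intro v hv
    refine Complex.norm_le_of_forall_mem_frontier_norm_le (U := Metric.ball (0:ℂ) ρ')
      Metric.isBounded_ball hWd.diffContOnCl ?_ ?_
    · intro z hz
      rw [frontier_ball _ hρ'0.ne'] at hz
      have hz' : ‖z‖ = ρ' := by simpa using hz
      exact (hWA z hz').trans (mul_le_mul_of_nonneg_left (hmid z hz').2 hA0.le)
    · rw [closure_ball _ hρ'0.ne']
      simpa using hv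
  -- the domain
  set U : Set ℂ := {v | R < ‖v‖ ∧ ‖v‖ < ρ ∧ θ < ‖f v‖} with hU
  have hUo : IsOpen U := by
    have e1 : IsOpen {v : ℂ | R < ‖v‖} := isOpen_lt continuous_const continuous_norm
    have e2 : IsOpen {v : ℂ | ‖v‖ < ρ} := isOpen_lt continuous_norm continuous_const
    have e3 : IsOpen {v : ℂ | θ < ‖f v‖} := isOpen_lt continuous_const hfd.continuous.norm
    exact e1.inter (e2.inter e3)
  have hUb : Bornology.IsBounded U := by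
    refine (Metric.isBounded_ball (x := (0:ℂ)) (r := ρ)).subset ?_
    intro v hv
    simpa using hv.2.1
  have hcl : closure U ⊆ {v : ℂ | R ≤ ‖v‖ ∧ ‖v‖ ≤ ρ ∧ θ ≤ ‖f v‖} := by
    refine closure_minimal ?_ ?_
    · intro v hv
      exact ⟨hv.1.le, hv.2.1.le, hv.2.2.le⟩
    · have e1 : IsClosed {v : ℂ | R ≤ ‖v‖} := isClosed_le continuous_const continuous_norm
      have e2 : IsClosed {v : ℂ | ‖v‖ ≤ ρ} := isClosed_le continuous_norm continuous_const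
      have e3 : IsClosed {v : ℂ | θ ≤ ‖f v‖} := isClosed_le continuous_const hfd.continuous.norm
      exact e1.inter (e2.inter e3)
  set Ψ : ℂ → ℂ := fun v => W v ^ (μ + 1) * v ^ b / f v ^ μ with hΨ
  have hΨd : DiffContOnCl ℂ Ψ U := by
    apply DifferentiableOn.diffContOnCl
    intro v hv
    have h3 := hcl hv
    have h4 : f v ≠ 0 := by
      rw [← norm_pos_iff]; exact hθ.trans_le h3.2.2
    have h5 : DifferentiableAt ℂ Ψ v := by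
      have e1 : DifferentiableAt ℂ (fun v => W v ^ (μ + 1) * v ^ b) v :=
        ((hWd v).pow _).mul (differentiableAt_id.pow b)
      exact e1.div ((hfd v).pow μ) (pow_ne_zero _ h4)
    exact h5.differentiableWithinAt
  have hΨn : ∀ v, ‖Ψ v‖ = ‖W v‖ ^ (μ + 1) * ‖v‖ ^ b / ‖f v‖ ^ μ := by
    intro v
    simp only [hΨ, norm_div, norm_mul, norm_pow]
  have hv₁U : v₁ ∈ U := by
    refine ⟨by rw [hv₁n]; exact h1, by rw [hv₁n]; exact h2, ?_⟩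
    exact hθb.trans_le (hmid v₁ hv₁n).1
  -- lower bound at v₁
  have hlow : A ^ (μ + 1) * b₃ * ρ' ^ b ≤ ‖Ψ v₁‖ := by
    have h3 : 0 < ‖f v₁‖ := hb₃.trans_le (hmid v₁ hv₁n).1
    have h4 : ‖W v₁‖ = A * ‖f v₁‖ := by
      rw [hA]; field_simp
    rw [hΨn, h4, hv₁n, mul_pow]
    have h5 : A ^ (μ + 1) * ‖f v₁‖ ^ (μ + 1) * ρ' ^ b / ‖f v₁‖ ^ μ = A ^ (μ + 1) * ‖f v₁‖ * ρ' ^ b := by
      rw [pow_succ ‖f v₁‖ μ]
      field_simp
    rw [h5]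
    have h6 := (hmid v₁ hv₁n).1
    gcongr
  set C : ℝ := max (κ' ^ (μ + 1) * b₃ * ρ' ^ b) (A ^ (μ + 1) * (B₃ ^ (μ + 1) * R ^ b / b₄ ^ μ)) with hC
  have hCfr : ∀ z ∈ frontier U, ‖Ψ z‖ ≤ C := by
    intro z hz
    have hz1 : z ∈ closure U := frontier_subset_closure hz
    have hz2 : z ∉ U := by
      rw [hUo.frontier_eq] at hz
      exact hz.2
    obtain ⟨ha, hb, hc⟩ := hcl hz1
    have hfz : 0 < ‖f z‖ := hθ.trans_le hc
    by_cases hc1 : ‖f z‖ = θ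
    · -- level curve
      have h3 := hfr z ha hb hc1
      refine le_trans ?_ (le_max_left _ _)
      refine le_trans ?_ N1
      rw [hΨn, hc1]
      have h4 : ‖W z‖ ≤ θ / 4 := h3
      have h5 : ‖W z‖ ^ (μ + 1) ≤ (θ / 4) ^ (μ + 1) := pow_le_pow_left₀ (norm_nonneg _) h4 _
      have h6 : ‖z‖ ^ b ≤ ρ ^ b := pow_le_pow_left₀ (norm_nonneg _) hb _
      rw [div_le_iff₀ (by positivity)]
      calc ‖W z‖ ^ (μ + 1) * ‖z‖ ^ b ≤ (θ / 4) ^ (μ + 1) * ρ ^ b := by gcongr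
        _ = (1 / 4) ^ (μ + 1) * θ * ρ ^ b * θ ^ μ := by
            rw [show θ / 4 = (1 / 4) * θ by ring, mul_pow, pow_succ θ μ]
            ring
    · by_cases hb1 : ‖z‖ = ρ
      · obtain ⟨h3, h3'⟩ := hout z hb1
        refine le_trans ?_ (le_max_left _ _)
        refine le_trans ?_ N2
        rw [hΨn, div_le_iff₀ (by positivity), hb1]
        have h4 : ‖W z‖ ^ (μ + 1) ≤ (κ * ‖f z‖) ^ (μ + 1) := pow_le_pow_left₀ (norm_nonneg _) h3 _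
        have h3'' : ‖f z‖ ≤ B₁ := h3'
        calc ‖W z‖ ^ (μ + 1) * ρ ^ b ≤ (κ * ‖f z‖) ^ (μ + 1) * ρ ^ b := by gcongr
          _ = κ ^ (μ + 1) * ‖f z‖ * ρ ^ b * ‖f z‖ ^ μ := by
              rw [mul_pow, pow_succ ‖f z‖ μ]; ring
          _ ≤ κ ^ (μ + 1) * B₁ * ρ ^ b * ‖f z‖ ^ μ := by gcongr
      · have hz3 : ‖z‖ = R := by
          by_contra hne3
          apply hz2
          refine ⟨lt_of_le_of_ne ha (Ne.symm hne3), lt_of_le_of_ne hb hb1, lt_of_le_of_ne hc (Ne.symm hc1)⟩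
        refine le_trans ?_ (le_max_right _ _)
        rw [hΨn, hz3]
        have h3 : ‖W z‖ ≤ A * B₃ := hWdisc z (by rw [hz3]; exact h1.le)
        have h4 : ‖W z‖ ^ (μ + 1) ≤ (A * B₃) ^ (μ + 1) := pow_le_pow_left₀ (norm_nonneg _) h3 _
        have h5 : b₄ ^ μ ≤ ‖f z‖ ^ μ := pow_le_pow_left₀ hb₄.le (hin z hz3) _
        calc ‖W z‖ ^ (μ + 1) * R ^ b / ‖f z‖ ^ μ ≤ (A * B₃) ^ (μ + 1) * R ^ b / b₄ ^ μ := by gcongr
          _ = A ^ (μ + 1) * (B₃ ^ (μ + 1) * R ^ b / b₄ ^ μ) := by rw [mul_pow]; ring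
  have hup := Complex.norm_le_of_forall_mem_frontier_norm_le hUb hΨd hCfr (subset_closure hv₁U)
  have hfin : C < A ^ (μ + 1) * b₃ * ρ' ^ b := by
    refine max_lt ?_ ?_
    · have : κ' ^ (μ + 1) < A ^ (μ + 1) := pow_lt_pow_left₀ hAκ hκ'.le (by omega)
      gcongr
    · have h3 : B₃ ^ (μ + 1) * R ^ b / b₄ ^ μ < b₃ * ρ' ^ b := by
        rw [div_lt_iff₀ (by positivity)]
        linarith [N3]
      calc A ^ (μ + 1) * (B₃ ^ (μ + 1) * R ^ b / b₄ ^ μ) < A ^ (μ + 1) * (b₃ * ρ' ^ b) := by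
            gcongr
        _ = _ := by ring
  linarith

end Pool.Agent.L1Q
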