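import Mathlib
set_option autoImplicit false
namespace Pool.Agent.L1Q
open Polynomial Complex

/-- number of roots (with multiplicity) of `p` in the open disc `|v| < ρ` -/
noncomputable def nroots (p : ℂ[X]) (ρ : ℝ) : ℕ :=
  Multiset.card (p.roots.filter (fun z => ‖z‖ < ρ))

theorem exp_per (t : ℝ) : exp (((t + 2 * Real.pi : ℝ) : ℂ) * I) = exp (t * I) := by
  push_cast
  rw [add_mul, exp_add, exp_two_pi_mul_I, mul_one]

theorem exp_per' (t : ℝ) : exp (-(((t + 2 * Real.pi : ℝ) : ℂ) * I)) = exp (-(t * I)) := by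
  rw [exp_neg, exp_neg, exp_per]

theorem slit {u : ℂ} (hu : ‖u‖ < 1) (t : ℝ) : 1 + -(u * exp (t * I)) ∈ slitPlane := by
  apply mem_slitPlane_of_norm_lt_one
  rw [norm_neg, norm_mul, norm_exp_ofReal_mul_I, mul_one]
  exact hu

theorem slit' {u : ℂ} (hu : ‖u‖ < 1) (t : ℝ) : 1 + -(u * exp (-(t * I))) ∈ slitPlane := by
  apply mem_slitPlane_of_norm_lt_one
  have : -((t : ℂ) * I) = ((-t : ℝ) : ℂ) * I := by push_cast; ring
  rw [norm_neg, norm_mul, this, norm_exp_ofReal_mul_I, mul_one]
  exact hu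

theorem factor (ρ : ℝ) (hρ : 0 < ρ) (r : ℂ) (hr : ‖r‖ ≠ ρ) :
    ∃ E : ℝ → ℂ, Continuous E ∧ (∀ t, E (t + 2 * Real.pi) = E t) ∧
      ∀ t : ℝ, ρ * exp (t * I) - r = exp (((if ‖r‖ < ρ then 1 else 0 : ℕ) : ℂ) * (t * I) + E t) := by
  have hρ' : (ρ : ℂ) ≠ 0 := by exact_mod_cast hρ.ne'
  rcases lt_or_gt_of_ne hr with h | h
  · refine ⟨fun t => Complex.log ρ + Complex.log (1 + -((r / ρ) * exp (-(t * I)))), ?_, ?_, ?_⟩
    · apply Continuous.add continuous_const
      apply Continuous.clog
      · fun_prop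
      · intro t
        apply slit'
        rw [norm_div, norm_real, Real.norm_eq_abs, abs_of_pos hρ, div_lt_one hρ]
        exact h
    · intro t
      simp only [exp_per']
    · intro t
      have hs : 1 + -((r / ρ) * exp (-(t * I))) ≠ 0 := by
        apply slitPlane_ne_zero
        apply slit'
        rw [norm_div, norm_real, Real.norm_eq_abs, abs_of_pos hρ, div_lt_one hρ]
        exact h
      rw [if_pos h, exp_add, exp_add, Complex.exp_log hρ', Complex.exp_log hs]
      have he : exp (-((t : ℂ) * I)) = (exp (t * I))⁻¹ := exp_neg _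
      rw [he]
      have hne : exp ((t : ℂ) * I) ≠ 0 := exp_ne_zero _
      push_cast
      rw [one_mul]
      field_simp
      ring
  · have hr0 : r ≠ 0 := by
      intro h0
      rw [h0, norm_zero] at h
      linarith
    refine ⟨fun t => Complex.log (-r) + Complex.log (1 + -((ρ / r) * exp (t * I))), ?_, ?_, ?_⟩
    · apply Continuous.add continuous_const
      apply Continuous.clog
      · fun_prop
      · intro t
        apply slit
        rw [norm_div, norm_real, Real.norm_eq_abs, abs_of_pos hρ, div_lt_one (norm_pos_iff.mpr hr0)]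
        exact h
    · intro t
      simp only [exp_per]
    · intro t
      have hs : 1 + -((ρ / r) * exp (t * I)) ≠ 0 := by
        apply slitPlane_ne_zero
        apply slit
        rw [norm_div, norm_real, Real.norm_eq_abs, abs_of_pos hρ, div_lt_one (norm_pos_iff.mpr hr0)]
        exact h
      rw [if_neg (not_lt.mpr h.le), exp_add, exp_add, Complex.exp_log (neg_ne_zero.mpr hr0),
        Complex.exp_log hs]
      push_cast
      rw [zero_mul, exp_zero]
      field_simp
      ring

theorem mult_log (ρ : ℝ) (hρ : 0 < ρ) (s : Multiset ℂ) (hs : ∀ r ∈ s, ‖r‖ ≠ ρ) :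
    ∃ E : ℝ → ℂ, Continuous E ∧ (∀ t, E (t + 2 * Real.pi) = E t) ∧
      ∀ t : ℝ, (s.map (fun r => ρ * exp (t * I) - r)).prod =
        exp ((Multiset.card (s.filter (fun z => ‖z‖ < ρ)) : ℂ) * (t * I) + E t) := by
  induction s using Multiset.induction_on with
  | empty => exact ⟨fun _ => 0, continuous_const, fun _ => rfl, fun t => by simp⟩
  | cons a s ih =>
    obtain ⟨E, hE1, hE2, hE3⟩ := ih (fun r hr => hs r (Multiset.mem_cons_of_mem hr))
    obtain ⟨F, hF1, hF2, hF3⟩ := factor ρ hρ a (hs a (Multiset.mem_cons_self a s))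
    refine ⟨fun t => F t + E t, hF1.add hE1, fun t => by simp only [hE2, hF2], ?_⟩
    intro t
    rw [Multiset.map_cons, Multiset.prod_cons, hE3, hF3, ← exp_add]
    congr 1
    by_cases h : ‖a‖ < ρ
    · have hf : (a ::ₘ s).filter (fun z => ‖z‖ < ρ) = a ::ₘ s.filter (fun z => ‖z‖ < ρ) :=
        Multiset.filter_cons_of_pos (p := fun z => ‖z‖ < ρ) s h
      rw [hf, Multiset.card_cons, if_pos h]
      push_cast
      ring
    · have hf : (a ::ₘ s).filter (fun z => ‖z‖ < ρ) = s.filter (fun z => ‖z‖ < ρ) :=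
        Multiset.filter_cons_of_neg (p := fun z => ‖z‖ < ρ) s h
      rw [hf, if_neg h]
      push_cast
      ring

/-- E0: continuous 2π-periodic logarithm of a polynomial on a circle free of roots. -/
theorem exists_log (p : ℂ[X]) (ρ : ℝ) (hρ : 0 < ρ) (hp : ∀ v : ℂ, ‖v‖ = ρ → p.eval v ≠ 0) :
    ∃ E : ℝ → ℂ, Continuous E ∧ (∀ t, E (t + 2 * Real.pi) = E t) ∧
      ∀ t : ℝ, p.eval (ρ * exp (t * I)) = exp ((nroots p ρ : ℂ) * (t * I) + E t) := by
  have hp0 : p ≠ 0 := by
    intro h
    apply hp ρ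
    · rw [norm_real, Real.norm_eq_abs, abs_of_pos hρ]
    · rw [h, eval_zero]
  obtain ⟨E, hE1, hE2, hE3⟩ := mult_log ρ hρ p.roots (by
    intro r hr hn
    exact hp r hn ((mem_roots hp0).mp hr))
  have hlc : p.leadingCoeff ≠ 0 := leadingCoeff_ne_zero.mpr hp0
  refine ⟨fun t => Complex.log p.leadingCoeff + E t, continuous_const.add hE1,
    fun t => by simp only [hE2], ?_⟩
  intro t
  have hsplit := (IsAlgClosed.splits p)
  have h1 : p = C p.leadingCoeff * (p.roots.map (fun a => X - C a)).prod :=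
    hsplit.eq_prod_roots
  conv_lhs => rw [h1]
  rw [eval_mul, eval_C, eval_multiset_prod, Multiset.map_map]
  have h2 : (p.roots.map (eval (ρ * exp (t * I)) ∘ fun a => X - C a)).prod =
      (p.roots.map (fun r => ρ * exp (t * I) - r)).prod := by
    congr 1
    apply Multiset.map_congr rfl
    intro r _
    simp
  rw [h2, hE3]
  unfold nroots
  rw [exp_add, exp_add, exp_add, Complex.exp_log hlc]
  ring

/-- E-b -/
theorem nroots_add (p q : ℂ[X]) (n : ℕ) (ρ : ℝ) (hρ : 0 < ρ) (c : ℂ) (hc : c ≠ 0)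
    (h : ∀ v : ℂ, ‖v‖ = ρ → ‖p.eval v * q.eval v - c * v ^ n‖ < ‖c‖ * ρ ^ n) :
    nroots p ρ + nroots q ρ = n := by
  have hρ' : (ρ : ℂ) ≠ 0 := by exact_mod_cast hρ.ne'
  have hnz : ∀ v : ℂ, ‖v‖ = ρ → p.eval v * q.eval v ≠ 0 := by
    intro v hv h0
    have := h v hv
    rw [h0, zero_sub, norm_neg, norm_mul, norm_pow, hv] at this
    exact lt_irrefl _ this
  obtain ⟨E, hE1, hE2, hE3⟩ := exists_log p ρ hρ (fun v hv h0 => hnz v hv (by rw [h0, zero_mul]))
  obtain ⟨F, hF1, hF2, hF3⟩ := exists_log q ρ hρ (fun v hv h0 => hnz v hv (by rw [h0, mul_zero]))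
  set w : ℝ → ℂ := fun t => ρ * exp (t * I) with hw
  have hwn : ∀ t, ‖w t‖ = ρ := by
    intro t
    rw [hw]
    simp only
    rw [norm_mul, norm_real, Real.norm_eq_abs, abs_of_pos hρ, norm_exp_ofReal_mul_I, mul_one]
  have hw0 : ∀ t, w t ≠ 0 := by
    intro t h0
    have := hwn t
    rw [h0, norm_zero] at this
    linarith
  have hwc : Continuous w := by rw [hw]; fun_prop
  have hwper : ∀ t, w (t + 2 * Real.pi) = w t := by
    intro t
    rw [hw]
    simp only [exp_per]
  set η : ℝ → ℂ := fun t => (p.eval (w t) * q.eval (w t) - c * (w t) ^ n) / (c * (w t) ^ n) with hη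
  have hcw : ∀ t, c * (w t) ^ n ≠ 0 := fun t => mul_ne_zero hc (pow_ne_zero _ (hw0 t))
  have hηn : ∀ t, ‖η t‖ < 1 := by
    intro t
    rw [hη]
    simp only
    rw [norm_div, div_lt_one (norm_pos_iff.mpr (hcw t)), norm_mul c, norm_pow, hwn]
    exact h _ (hwn t)
  have hηc : Continuous η := by
    rw [hη]
    apply Continuous.div
    · apply Continuous.sub
      · exact (p.continuous.comp hwc).mul (q.continuous.comp hwc)
      · exact continuous_const.mul (hwc.pow n)
    · exact continuous_const.mul (hwc.pow n)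
    · exact hcw
  have hslit : ∀ t, 1 + η t ∈ slitPlane := fun t => mem_slitPlane_of_norm_lt_one (hηn t)
  have hLc : Continuous (fun t => Complex.log (1 + η t)) := by
    apply Continuous.clog (continuous_const.add hηc) hslit
  have hcρ : c * (ρ : ℂ) ^ n ≠ 0 := mul_ne_zero hc (pow_ne_zero _ hρ')
  set A : ℝ → ℂ := fun t => ((nroots p ρ : ℂ) + (nroots q ρ : ℂ) - n) * (t * I) + E t + F t -
    Complex.log (c * (ρ : ℂ) ^ n) - Complex.log (1 + η t) with hA
  have hAc : Continuous A := by
    rw [hA]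
    apply Continuous.sub _ hLc
    apply Continuous.sub _ continuous_const
    apply Continuous.add _ hF1
    apply Continuous.add _ hE1
    fun_prop
  have hexpA : ∀ t, exp (A t) = 1 := by
    intro t
    have e1 : exp (A t) = exp ((nroots p ρ : ℂ) * (t * I) + E t) *
        exp ((nroots q ρ : ℂ) * (t * I) + F t) / (exp ((n : ℂ) * (t * I)) *
        exp (Complex.log (c * (ρ : ℂ) ^ n)) * exp (Complex.log (1 + η t))) := by
      rw [← exp_add, ← exp_add, ← exp_add, ← exp_sub]
      congr 1
      rw [hA]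
      simp only
      ring
    rw [e1, ← hE3, ← hF3, Complex.exp_log hcρ, Complex.exp_log (slitPlane_ne_zero (hslit t))]
    have e2 : c * (w t) ^ n * (1 + η t) = p.eval (w t) * q.eval (w t) := by
      rw [hη]
      simp only
      rw [mul_add, mul_one, mul_div_cancel₀ _ (hcw t)]
      ring
    have e3 : exp ((n : ℂ) * (t * I)) * (c * (ρ : ℂ) ^ n) = c * (w t) ^ n := by
      rw [hw]
      simp only
      rw [mul_pow, ← exp_nat_mul]
      ring
    rw [e3, e2]
    exact div_self (hnz _ (hwn t))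
  have hint : ∀ t, ∃ m : ℤ, A t = m * (2 * Real.pi * I) := by
    intro t
    exact Complex.exp_eq_one_iff.mp (hexpA t)
  choose m hm using hint
  have hpi : (2 * (Real.pi : ℂ) * I) ≠ 0 := two_pi_I_ne_zero
  have hmc : Continuous m := by
    have h1 : (fun t => ((m t : ℤ) : ℝ)) = fun t => (A t / (2 * Real.pi * I)).re := by
      funext t
      rw [hm t, mul_div_assoc, div_self hpi, mul_one]
      simp
    have h2 : Continuous (fun t => ((m t : ℤ) : ℝ)) := by
      rw [h1]
      exact continuous_re.comp (hAc.div_const _)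
    exact Int.isClosedEmbedding_coe_real.isEmbedding.continuous_iff.mpr h2
  have hm0 : m (0 + 2 * Real.pi) = m 0 := by
    exact PreconnectedSpace.constant inferInstance hmc
  have hAA : A (0 + 2 * Real.pi) = A 0 := by rw [hm, hm, hm0]
  have hηper : η (0 + 2 * Real.pi) = η 0 := by
    rw [hη]
    simp only [hwper]
  rw [hA] at hAA
  simp only at hAA
  rw [hE2, hF2, hηper] at hAA
  have h3 : ((nroots p ρ : ℂ) + (nroots q ρ : ℂ) - n) * (2 * Real.pi * I) = 0 := by
    push_cast at hAA
    linear_combination hAA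
  rcases mul_eq_zero.mp h3 with h4 | h4
  · have h5 : ((nroots p ρ + nroots q ρ : ℕ) : ℂ) = (n : ℂ) := by
      push_cast
      linear_combination h4
    exact_mod_cast h5
  · exact absurd h4 hpi

end Pool.Agent.L1Q
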