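import Mathlib
set_option autoImplicit false
namespace Pool.Agent.L1Q
open Polynomial Complex

/-- the element `f = Σ a^i δ_{1/D_i}` -/
noncomputable def fD (D : ℕ → ℕ) (a : ℝ) (t : ℚ) : ℂ :=
  ∑' i : ℕ, if t = 1 / (D i : ℚ) then (a : ℂ) ^ i else 0

theorem red_norm_tsum_sub {ι : Type*} (Φ : ι → ℂ) (b : ι → ℝ) (hb : Summable b)
    (hΦ : ∀ x, ‖Φ x‖ ≤ b x) (U : Finset ι) :
    ‖∑' x, Φ x - ∑ x ∈ U, Φ x‖ ≤ ∑' x, b x - ∑ x ∈ U, b x := by
  have hs : Summable Φ := Summable.of_norm_bounded hb hΦ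
  have h1 := hs.sum_add_tsum_compl (s := U)
  have h2 := hb.sum_add_tsum_compl (s := U)
  rw [← h1, ← h2, add_sub_cancel_left, add_sub_cancel_left]
  refine (norm_tsum_le_tsum_norm (hs.norm.subtype _)).trans ?_
  exact Summable.tsum_le_tsum (fun x => hΦ x) (hs.norm.subtype _) (hb.subtype _)

theorem red_choose (g : ℚ → ℂ) (hg0 : ∀ q : ℚ, q ≤ 0 → g q = 0)
    (hgs : Summable fun q : ℚ => ‖g q‖) (d : ℝ) (hd : 0 < d) :
    ∃ S : Finset ℚ, (∀ S' : Finset ℚ, (∀ q ∈ S, 0 < q → q ∈ S') →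
      ∀ t : Finset ℚ, Disjoint t S' → ∑ q ∈ t, ‖g q‖ ≤ d) := by
  obtain ⟨S, hS⟩ := (summable_iff_vanishing_norm.1 hgs) d hd
  refine ⟨S, fun S' hS' t ht => ?_⟩
  have h1 : ∑ q ∈ t, ‖g q‖ = ∑ q ∈ t.filter (fun q => 0 < q), ‖g q‖ := by
    rw [Finset.sum_filter]
    refine Finset.sum_congr rfl fun q _ => ?_
    split_ifs with h
    · rfl
    · rw [hg0 q (not_lt.1 h), norm_zero]
  have h2 := hS (t.filter (fun q => 0 < q)) (by
    rw [Finset.disjoint_left]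
    intro q hq hqS
    rw [Finset.mem_filter] at hq
    exact (Finset.disjoint_left.1 ht) hq.1 (hS' q hqS hq.2))
  rw [h1]
  exact (le_abs_self _).trans (by simpa [Real.norm_eq_abs] using h2.le)

theorem red_tsum_le (G : ℚ → ℝ) (hG : ∀ q, 0 ≤ G q) (hs : Summable G) (S : Finset ℚ) (d : ℝ)
    (h : ∀ t : Finset ℚ, Disjoint t S → ∑ q ∈ t, G q ≤ d) :
    ∑' q, G q ≤ ∑ q ∈ S, G q + d := by
  refine hs.tsum_le_of_sum_le fun t => ?_
  have h1 : ∑ q ∈ t, G q = ∑ q ∈ t ∩ S, G q + ∑ q ∈ t \ S, G q := by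
    exact (Finset.sum_inter_add_sum_sdiff t S G).symm
  rw [h1]
  refine add_le_add ?_ (h _ Finset.sdiff_disjoint)
  exact Finset.sum_le_sum_of_subset_of_nonneg Finset.inter_subset_right fun q _ _ => hG q


/-- the main identity: total sum over pairs -/
theorem red_total (D : ℕ → ℕ) (hDpos : ∀ i, 0 < D i) (hDinj : Function.Injective D)
    (a : ℝ) (g h : ℚ → ℂ)
    (hg0 : ∀ q : ℚ, q ≤ 0 → g q = 0) (hh0 : ∀ q : ℚ, q ≤ 0 → h q = 0)
    (hgs : Summable fun q : ℚ => ‖g q‖) (hhs : Summable fun q : ℚ => ‖h q‖)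
    (hgh : ∀ t : ℚ, t ≤ 1 → ∑' r : ℚ, g r * h (t - r) = fD D a t)
    (χ : ℚ → ℂ) (hχ : ∀ t, 0 ≤ t → ‖χ t‖ ≤ 1) :
    (∀ x : ℚ × ℚ, ‖(if x.1 + x.2 ≤ 1 then g x.1 * h x.2 * χ (x.1 + x.2) else 0)‖
        ≤ ‖g x.1‖ * ‖h x.2‖) ∧
    ∑' x : ℚ × ℚ, (if x.1 + x.2 ≤ 1 then g x.1 * h x.2 * χ (x.1 + x.2) else 0)
      = ∑' i : ℕ, (a : ℂ) ^ i * χ (1 / (D i : ℚ)) := by
  have hbound : ∀ x : ℚ × ℚ, ‖(if x.1 + x.2 ≤ 1 then g x.1 * h x.2 * χ (x.1 + x.2) else 0)‖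
        ≤ ‖g x.1‖ * ‖h x.2‖ := by
    intro x
    split_ifs with h1
    · by_cases hx1 : x.1 ≤ 0
      · simp [hg0 _ hx1]
      by_cases hx2 : x.2 ≤ 0
      · simp [hh0 _ hx2]
      push Not at hx1 hx2
      rw [norm_mul, norm_mul]
      exact mul_le_of_le_one_right (by positivity) (hχ _ (by linarith))
    · rw [norm_zero]; positivity
  refine ⟨hbound, ?_⟩
  have hb : Summable fun x : ℚ × ℚ => ‖g x.1‖ * ‖h x.2‖ :=
    hgs.mul_of_nonneg hhs (fun _ => norm_nonneg _) (fun _ => norm_nonneg _)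
  have hs : Summable fun x : ℚ × ℚ =>
      (if x.1 + x.2 ≤ 1 then g x.1 * h x.2 * χ (x.1 + x.2) else 0) :=
    Summable.of_norm_bounded hb hbound
  let e : ℚ × ℚ ≃ ℚ × ℚ :=
    { toFun := fun x => (x.2, x.1 - x.2)
      invFun := fun x => (x.1 + x.2, x.1)
      left_inv := fun x => by ext <;> simp
      right_inv := fun x => by ext <;> simp }
  rw [← e.tsum_eq]
  have hs' := e.summable_iff.2 hs
  rw [Summable.tsum_prod (by exact hs')]
  have hin : ∀ t : ℚ, ∑' q : ℚ, (if (e (t, q)).1 + (e (t, q)).2 ≤ 1 then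
      g (e (t, q)).1 * h (e (t, q)).2 * χ ((e (t, q)).1 + (e (t, q)).2) else 0)
      = if t ≤ 1 then fD D a t * χ t else 0 := by
    intro t
    have he : ∀ q : ℚ, (if (e (t, q)).1 + (e (t, q)).2 ≤ 1 then
      g (e (t, q)).1 * h (e (t, q)).2 * χ ((e (t, q)).1 + (e (t, q)).2) else 0)
        = if t ≤ 1 then g q * h (t - q) * χ t else 0 := by
      intro q
      have h1 : (e (t, q)).1 = q := rfl
      have h2 : (e (t, q)).2 = t - q := rfl
      rw [h1, h2, add_sub_cancel]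
    rw [tsum_congr he]
    split_ifs with ht
    · rw [tsum_mul_right, hgh t ht]
    · exact tsum_zero
  rw [tsum_congr hin]
  have hinj : Function.Injective (fun i : ℕ => 1 / (D i : ℚ)) := by
    intro i j hij
    simp only [one_div, inv_inj, Nat.cast_inj] at hij
    exact hDinj hij
  have hfD : ∀ i : ℕ, fD D a (1 / (D i : ℚ)) = (a : ℂ) ^ i := by
    intro i
    unfold fD
    rw [tsum_eq_single i, if_pos rfl]
    intro j hj
    rw [if_neg]
    intro h1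
    exact hj (hinj h1).symm
  have hsupp : Function.support (fun t : ℚ => if t ≤ 1 then fD D a t * χ t else 0) ⊆
      Set.range (fun i : ℕ => 1 / (D i : ℚ)) := by
    intro t ht
    by_contra hcon
    apply ht
    have h0 : fD D a t = 0 := by
      unfold fD
      have : ∀ i : ℕ, (if t = 1 / (D i : ℚ) then (a : ℂ) ^ i else 0) = 0 := by
        intro i
        rw [if_neg]
        intro h1
        exact hcon ⟨i, h1.symm⟩
      rw [tsum_congr this, tsum_zero]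
    simp [h0]
  rw [← hinj.tsum_eq hsupp]
  refine tsum_congr fun i => ?_
  have hle : 1 / (D i : ℚ) ≤ 1 := by
    rw [div_le_one (by exact_mod_cast hDpos i)]
    exact_mod_cast hDpos i
  rw [if_pos hle, hfD]


/-- the polynomial attached to a finite set of positive rationals -/
noncomputable def redPoly (N : ℕ) (S : Finset ℚ) (g : ℚ → ℂ) : ℂ[X] :=
  ∑ q ∈ S, C (g q) * X ^ ((N : ℚ) * q).num.toNat

theorem redPoly_eval (N : ℕ) (S : Finset ℚ) (g : ℚ → ℂ) (v : ℂ) :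
    (redPoly N S g).eval v = ∑ q ∈ S, g q * v ^ ((N : ℚ) * q).num.toNat := by
  simp [redPoly, eval_finsetSum]

theorem red_exp (N : ℕ) (hN : 0 < N) (q : ℚ) (hq : 0 < q) (hd : q.den ∣ N) :
    (((N : ℚ) * q).num.toNat : ℚ) = N * q ∧ 0 < ((N : ℚ) * q).num.toNat := by
  obtain ⟨c, hc⟩ := hd
  have h1 : (N : ℚ) * q = ((c * q.num : ℤ) : ℚ) := by
    have h2 : (q.den : ℚ) * q = q.num := Rat.den_mul_eq_num q
    rw [hc]
    push_cast
    rw [← h2]
    ring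
  have h4 : (0 : ℤ) < c * q.num := by
    have : (0 : ℚ) < ((c * q.num : ℤ) : ℚ) := by
      rw [← h1]; positivity
    exact_mod_cast this
  rw [h1]
  have h5 : ((c * q.num : ℤ) : ℚ).num = c * q.num := Rat.num_intCast _
  rw [h5]
  constructor
  · have : ((c * q.num).toNat : ℤ) = c * q.num := Int.toNat_of_nonneg h4.le
    exact_mod_cast this
  · omega

theorem redPoly_bound (N : ℕ) (S : Finset ℚ) (g : ℚ → ℂ) (hgs : Summable fun q : ℚ => ‖g q‖)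
    (M : ℝ) (hM : ∑' q : ℚ, ‖g q‖ ≤ M) (v : ℂ) (hv : ‖v‖ ≤ 1) :
    ‖(redPoly N S g).eval v‖ ≤ M := by
  rw [redPoly_eval]
  refine (norm_sum_le _ _).trans ?_
  refine le_trans ?_ ((hgs.sum_le_tsum S fun _ _ => norm_nonneg _).trans hM)
  refine Finset.sum_le_sum fun q _ => ?_
  rw [norm_mul, norm_pow]
  exact mul_le_of_le_one_right (norm_nonneg _) (pow_le_one₀ (norm_nonneg _) hv)

theorem redPoly_rot (N n : ℕ) (hn : 0 < n) (k : ℕ) (hk : 0 < k) (hN : N = k * n)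
    (S : Finset ℚ) (hS : ∀ q ∈ S, 0 < q ∧ q.den ∣ N)
    (g : ℚ → ℂ) (ε : ℝ)
    (hε : ∀ t : Finset ℚ, (∀ q ∈ t, ¬ q.den ∣ k) → ∑ q ∈ t, ‖g q‖ ≤ ε / 2)
    (v : ℂ) (hv : ‖v‖ ≤ 1) (l : ℕ) :
    ‖(redPoly N S g).eval (exp (2 * Real.pi * I / (n : ℕ)) ^ l * v)
      - (redPoly N S g).eval v‖ ≤ ε := by
  rw [redPoly_eval, redPoly_eval, ← Finset.sum_sub_distrib]
  set w : ℂ := exp (2 * Real.pi * I / (n : ℕ)) with hw
  have hwn : w ^ n = 1 := by
    rw [hw, ← Complex.exp_nat_mul]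
    rw [mul_div_cancel₀ _ (by exact_mod_cast hn.ne')]
    exact Complex.exp_two_pi_mul_I
  have hwnorm : ‖w‖ = 1 := by
    rw [← pow_left_inj₀ (norm_nonneg w) zero_le_one hn.ne', ← norm_pow, hwn]
    simp
  have h1 : ∀ q ∈ S, ‖g q * (w ^ l * v) ^ ((N : ℚ) * q).num.toNat
      - g q * v ^ ((N : ℚ) * q).num.toNat‖ ≤ if q.den ∣ k then 0 else 2 * ‖g q‖ := by
    intro q hq
    obtain ⟨hq0, hqN⟩ := hS q hq
    split_ifs with hd
    · obtain ⟨h2, -⟩ := red_exp N (by rw [hN]; positivity) q hq0 hqN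
      obtain ⟨h3, -⟩ := red_exp k hk q hq0 hd
      have h4 : ((N : ℚ) * q).num.toNat = n * ((k : ℚ) * q).num.toNat := by
        have : (((N : ℚ) * q).num.toNat : ℚ) = ((n * ((k : ℚ) * q).num.toNat : ℕ) : ℚ) := by
          push_cast
          rw [h2, h3, hN]
          push_cast
          ring
        exact_mod_cast this
      have h5 : (w ^ l * v) ^ ((N : ℚ) * q).num.toNat = v ^ ((N : ℚ) * q).num.toNat := by
        rw [mul_pow]
        have : (w ^ l) ^ ((N : ℚ) * q).num.toNat = 1 := by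
          rw [h4, ← pow_mul]
          rw [show l * (n * ((k : ℚ) * q).num.toNat) = n * (l * ((k : ℚ) * q).num.toNat) by ring]
          rw [pow_mul, hwn, one_pow]
        rw [this, one_mul]
      rw [h5, sub_self, norm_zero]
    · refine (norm_sub_le _ _).trans ?_
      have h6 : ∀ u : ℂ, ‖u‖ ≤ 1 → ‖g q * u ^ ((N : ℚ) * q).num.toNat‖ ≤ ‖g q‖ := by
        intro u hu
        rw [norm_mul, norm_pow]
        exact mul_le_of_le_one_right (norm_nonneg _) (pow_le_one₀ (norm_nonneg _) hu)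
      have h7 : ‖w ^ l * v‖ ≤ 1 := by
        rw [norm_mul, norm_pow, hwnorm, one_pow, one_mul]; exact hv
      linarith [h6 _ h7, h6 _ hv]
  refine (norm_sum_le_of_le S h1).trans ?_
  rw [Finset.sum_ite, Finset.sum_const_zero, zero_add, ← Finset.mul_sum]
  have := hε (S.filter fun q => ¬ q.den ∣ k) (fun q hq => (Finset.mem_filter.1 hq).2)
  linarith


theorem red_prod (D : ℕ → ℕ) (hDpos : ∀ i, 0 < D i) (hDinj : Function.Injective D)
    (a : ℝ) (ha : 0 < a) (ha1 : a < 1) (g h : ℚ → ℂ)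
    (hg0 : ∀ q : ℚ, q ≤ 0 → g q = 0) (hh0 : ∀ q : ℚ, q ≤ 0 → h q = 0)
    (hgs : Summable fun q : ℚ => ‖g q‖) (hhs : Summable fun q : ℚ => ‖h q‖)
    (M : ℝ) (hgM : ∑' q : ℚ, ‖g q‖ ≤ M) (hhM : ∑' q : ℚ, ‖h q‖ ≤ M)
    (hgh : ∀ t : ℚ, t ≤ 1 → ∑' r : ℚ, g r * h (t - r) = fD D a t)
    (K : ℕ) (hdvd : ∀ i, i ≤ K → D i ∣ D K)
    (S : Finset ℚ) (hS : ∀ q ∈ S, 0 < q ∧ q.den ∣ D K) (d δ : ℝ) (hd : 0 ≤ d)
    (hgd : ∑' q : ℚ, ‖g q‖ ≤ ∑ q ∈ S, ‖g q‖ + d)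
    (hhd : ∑' q : ℚ, ‖h q‖ ≤ ∑ q ∈ S, ‖h q‖ + d)
    (hdM : 2 * M * d ≤ δ / 2) (hK : a ^ (K + 1) / (1 - a) ≤ δ / 2)
    (v : ℂ) (hv : ‖v‖ ≤ 1) :
    ‖(redPoly (D K) S g).eval v * (redPoly (D K) S h).eval v
      - ∑ i ∈ Finset.range (K + 1), (a : ℂ) ^ i * v ^ (D K / D i)‖
      ≤ δ + M ^ 2 * ‖v‖ ^ (D K) := by
  have hM0 : 0 ≤ M := (tsum_nonneg fun _ => norm_nonneg _).trans hgM
  have hδ : 0 ≤ δ := by
    have : 0 ≤ 2 * M * d := by positivity
    linarith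
  have hDK : 0 < D K := hDpos K
  by_cases hv0 : v = 0
  · subst hv0
    have h1 : ∀ f : ℚ → ℂ, (redPoly (D K) S f).eval 0 = 0 := by
      intro f
      rw [redPoly_eval]
      refine Finset.sum_eq_zero fun q hq => ?_
      rw [zero_pow (red_exp (D K) hDK q (hS q hq).1 (hS q hq).2).2.ne', mul_zero]
    have h2 : ∑ i ∈ Finset.range (K + 1), (a : ℂ) ^ i * (0 : ℂ) ^ (D K / D i) = 0 := by
      refine Finset.sum_eq_zero fun i hi => ?_
      have hi' : i ≤ K := Nat.lt_succ_iff.1 (Finset.mem_range.1 hi)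
      have : 0 < D K / D i := Nat.div_pos (Nat.le_of_dvd hDK (hdvd i hi')) (hDpos i)
      rw [zero_pow this.ne', mul_zero]
    rw [h1, h2, zero_mul, sub_zero, norm_zero]
    positivity
  set χ : ℚ → ℂ := fun t => exp ((t : ℂ) * (D K : ℂ) * log v) with hχdef
  have hχadd : ∀ s t : ℚ, χ (s + t) = χ s * χ t := by
    intro s t
    simp only [hχdef]
    rw [← Complex.exp_add]
    congr 1
    push_cast
    ring
  have hχnorm : ∀ t : ℚ, 0 ≤ t → ‖χ t‖ ≤ 1 := by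
    intro t ht
    simp only [hχdef]
    rw [Complex.norm_exp, Real.exp_le_one_iff]
    have h1 : ((t : ℂ) * (D K : ℂ) * log v).re = (t : ℝ) * (D K : ℝ) * Real.log ‖v‖ := by
      rw [show (t : ℂ) * (D K : ℂ) = (((t : ℝ) * (D K : ℝ) : ℝ) : ℂ) by push_cast; rfl]
      rw [Complex.re_ofReal_mul, Complex.log_re]
    rw [h1]
    have h2 : Real.log ‖v‖ ≤ 0 := Real.log_nonpos (norm_nonneg _) hv
    have h3 : (0 : ℝ) ≤ (t : ℝ) * (D K : ℝ) := by
      have : (0 : ℝ) ≤ (t : ℝ) := by exact_mod_cast ht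
      positivity
    exact mul_nonpos_of_nonneg_of_nonpos h3 h2
  have hχnat : ∀ (t : ℚ) (n : ℕ), (n : ℚ) = D K * t → χ t = v ^ n := by
    intro t n hn
    simp only [hχdef]
    have h1 : (t : ℂ) * (D K : ℂ) = (n : ℂ) := by
      have : (n : ℂ) = ((D K * t : ℚ) : ℂ) := by rw [← hn]; simp
      rw [this]; push_cast; ring
    rw [h1, Complex.exp_nat_mul, Complex.exp_log hv0]
  obtain ⟨hbound, htot⟩ := red_total D hDpos hDinj a g h hg0 hh0 hgs hhs hgh χ hχnorm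
  set Φ : ℚ × ℚ → ℂ := fun x => if x.1 + x.2 ≤ 1 then g x.1 * h x.2 * χ (x.1 + x.2) else 0
    with hΦ
  have hb : Summable fun x : ℚ × ℚ => ‖g x.1‖ * ‖h x.2‖ :=
    hgs.mul_of_nonneg hhs (fun _ => norm_nonneg _) (fun _ => norm_nonneg _)
  have hbt : ∑' x : ℚ × ℚ, ‖g x.1‖ * ‖h x.2‖ = (∑' q, ‖g q‖) * ∑' q, ‖h q‖ :=
    (hgs.tsum_mul_tsum hhs hb).symm
  have hA := red_norm_tsum_sub Φ _ hb hbound (S ×ˢ S)
  have hbS : ∑ x ∈ S ×ˢ S, ‖g x.1‖ * ‖h x.2‖ = (∑ q ∈ S, ‖g q‖) * ∑ q ∈ S, ‖h q‖ := by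
    rw [Finset.sum_mul_sum, ← Finset.sum_product']
  have hGS0 : 0 ≤ ∑ q ∈ S, ‖g q‖ := Finset.sum_nonneg fun _ _ => norm_nonneg _
  have hHS0 : 0 ≤ ∑ q ∈ S, ‖h q‖ := Finset.sum_nonneg fun _ _ => norm_nonneg _
  have hGS : ∑ q ∈ S, ‖g q‖ ≤ ∑' q, ‖g q‖ := hgs.sum_le_tsum S fun _ _ => norm_nonneg _
  have hHS : ∑ q ∈ S, ‖h q‖ ≤ ∑' q, ‖h q‖ := hhs.sum_le_tsum S fun _ _ => norm_nonneg _
  have hA' : ‖∑' x, Φ x - ∑ x ∈ S ×ˢ S, Φ x‖ ≤ δ / 2 := by
    refine hA.trans (le_trans ?_ hdM)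
    rw [hbt, hbS]
    nlinarith [mul_le_mul_of_nonneg_left hhM (sub_nonneg.2 hGS),
      mul_le_mul_of_nonneg_left (sub_le_iff_le_add'.2 hhd) hGS0,
      mul_le_mul_of_nonneg_right (hGS.trans hgM) hd,
      mul_le_mul_of_nonneg_right (sub_le_iff_le_add'.2 hgd) hM0]
  -- the tail of the series
  have hser : Summable fun i : ℕ => (a : ℂ) ^ i * χ (1 / (D i : ℚ)) := by
    refine Summable.of_norm_bounded (g := fun i : ℕ => a ^ i)
      (summable_geometric_of_lt_one ha.le ha1) fun i => ?_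
    rw [norm_mul, norm_pow, Complex.norm_real, Real.norm_eq_abs, abs_of_pos ha]
    exact mul_le_of_le_one_right (by positivity) (hχnorm _ (by positivity))
  have htail : ‖∑' i : ℕ, (a : ℂ) ^ i * χ (1 / (D i : ℚ))
      - ∑ i ∈ Finset.range (K + 1), (a : ℂ) ^ i * χ (1 / (D i : ℚ))‖ ≤ δ / 2 := by
    refine le_trans ?_ hK
    rw [← hser.sum_add_tsum_nat_add (K + 1), add_sub_cancel_left]
    have hg2 : HasSum (fun i : ℕ => a ^ (i + (K + 1))) (a ^ (K + 1) / (1 - a)) := by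
      have := (hasSum_geometric_of_lt_one ha.le ha1).mul_left (a ^ (K + 1))
      rw [div_eq_mul_inv]
      refine this.congr_fun ?_ |> fun x => x
      intro i
      rw [pow_add, mul_comm]
    refine tsum_of_norm_bounded hg2 fun i => ?_
    rw [norm_mul, norm_pow, Complex.norm_real, Real.norm_eq_abs, abs_of_pos ha]
    exact mul_le_of_le_one_right (by positivity) (hχnorm _ (by positivity))
  have hfin : ∑ i ∈ Finset.range (K + 1), (a : ℂ) ^ i * v ^ (D K / D i)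
      = ∑ i ∈ Finset.range (K + 1), (a : ℂ) ^ i * χ (1 / (D i : ℚ)) := by
    refine Finset.sum_congr rfl fun i hi => ?_
    have hi' : i ≤ K := Nat.lt_succ_iff.1 (Finset.mem_range.1 hi)
    rw [hχnat (1 / (D i : ℚ)) (D K / D i)]
    rw [Nat.cast_div (hdvd i hi') (by exact_mod_cast (hDpos i).ne')]
    ring
  -- product of the polynomials
  have hprod : (redPoly (D K) S g).eval v * (redPoly (D K) S h).eval v
      = ∑ x ∈ S ×ˢ S, Φ x
        + ∑ x ∈ S ×ˢ S, (if x.1 + x.2 ≤ 1 then 0 else g x.1 * h x.2 * χ (x.1 + x.2)) := by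
    rw [redPoly_eval, redPoly_eval, Finset.sum_mul_sum, ← Finset.sum_product',
      ← Finset.sum_add_distrib]
    refine Finset.sum_congr rfl fun x hx => ?_
    rw [Finset.mem_product] at hx
    rw [← hχnat x.1 _ (red_exp (D K) hDK x.1 (hS _ hx.1).1 (hS _ hx.1).2).1,
      ← hχnat x.2 _ (red_exp (D K) hDK x.2 (hS _ hx.2).1 (hS _ hx.2).2).1]
    simp only [hΦ]
    split_ifs
    · rw [hχadd]; ring
    · rw [hχadd]; ring
  have hrest : ‖∑ x ∈ S ×ˢ S, (if x.1 + x.2 ≤ 1 then 0 else g x.1 * h x.2 * χ (x.1 + x.2))‖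
      ≤ M ^ 2 * ‖v‖ ^ (D K) := by
    have h1 : ∀ x ∈ S ×ˢ S, ‖(if x.1 + x.2 ≤ 1 then 0 else g x.1 * h x.2 * χ (x.1 + x.2))‖
        ≤ ‖g x.1‖ * ‖h x.2‖ * ‖v‖ ^ (D K) := by
      intro x hx
      rw [Finset.mem_product] at hx
      split_ifs with h2
      · rw [norm_zero]; positivity
      · push Not at h2
        rw [norm_mul, norm_mul]
        refine mul_le_mul_of_nonneg_left ?_ (by positivity)
        obtain ⟨h3, -⟩ := red_exp (D K) hDK x.1 (hS _ hx.1).1 (hS _ hx.1).2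
        obtain ⟨h4, -⟩ := red_exp (D K) hDK x.2 (hS _ hx.2).1 (hS _ hx.2).2
        have h5 : ((((D K : ℚ) * x.1).num.toNat + ((D K : ℚ) * x.2).num.toNat : ℕ) : ℚ)
            = D K * (x.1 + x.2) := by
          push_cast
          rw [h3, h4]; ring
        rw [hχnat _ _ h5, norm_pow]
        refine pow_le_pow_of_le_one (norm_nonneg _) hv ?_
        have h6 : (D K : ℚ) ≤ ((((D K : ℚ) * x.1).num.toNat + ((D K : ℚ) * x.2).num.toNat : ℕ) : ℚ) := by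
          rw [h5]
          have : (0 : ℚ) < D K := by exact_mod_cast hDK
          nlinarith
        exact_mod_cast h6
    refine (norm_sum_le_of_le _ h1).trans ?_
    rw [← Finset.sum_mul, hbS]
    refine mul_le_mul_of_nonneg_right ?_ (by positivity)
    rw [sq]
    exact mul_le_mul (hGS.trans hgM) (hHS.trans hhM) hHS0 hM0
  rw [hprod, hfin]
  rw [htot] at hA'
  set T1 := ∑ x ∈ S ×ˢ S, Φ x
  set T2 := ∑ x ∈ S ×ˢ S, (if x.1 + x.2 ≤ 1 then (0:ℂ) else g x.1 * h x.2 * χ (x.1 + x.2))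
  set T3 := ∑' i : ℕ, (a : ℂ) ^ i * χ (1 / (D i : ℚ))
  set T4 := ∑ i ∈ Finset.range (K + 1), (a : ℂ) ^ i * χ (1 / (D i : ℚ))
  have : T1 + T2 - T4 = -(T3 - T1) + (T3 - T4) + T2 := by ring
  rw [this]
  refine (norm_add₃_le).trans ?_
  rw [norm_neg]
  linarith

/-- R: from a (truncated) factorization in `ℓ¹(ℚ⁺)` to polynomials. -/
theorem reduction (D : ℕ → ℕ) (hD0 : D 0 = 1) (hDdvd : ∀ i, D i ∣ D (i + 1))
    (hDlt : ∀ i, D i < D (i + 1)) (hDall : ∀ m k : ℕ, 0 < m → m ≤ k → m ∣ D k)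
    (a : ℝ) (ha : 0 < a) (ha1 : a < 1) (g h : ℚ → ℂ)
    (hg0 : ∀ q : ℚ, q ≤ 0 → g q = 0) (hh0 : ∀ q : ℚ, q ≤ 0 → h q = 0)
    (hgs : Summable fun q : ℚ => ‖g q‖) (hhs : Summable fun q : ℚ => ‖h q‖)
    (M : ℝ) (hgM : ∑' q : ℚ, ‖g q‖ ≤ M) (hhM : ∑' q : ℚ, ‖h q‖ ≤ M)
    (hgh : ∀ t : ℚ, t ≤ 1 → ∑' r : ℚ, g r * h (t - r) = fD D a t)
    (ε : ℝ) (hε : 0 < ε) :
    ∃ k₀ : ℕ, ∀ k : ℕ, k₀ ≤ k → ∀ δ : ℝ, 0 < δ → ∃ K : ℕ, k < K ∧ ∃ p q : ℂ[X],
      p.eval 0 = 0 ∧ q.eval 0 = 0 ∧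
      (∀ v : ℂ, ‖v‖ ≤ 1 → ‖p.eval v‖ ≤ M ∧ ‖q.eval v‖ ≤ M) ∧
      (∀ v : ℂ, ‖v‖ ≤ 1 → ∀ l : ℕ,
        ‖p.eval (exp (2 * Real.pi * I / (D K / D k : ℕ)) ^ l * v) - p.eval v‖ ≤ ε ∧
        ‖q.eval (exp (2 * Real.pi * I / (D K / D k : ℕ)) ^ l * v) - q.eval v‖ ≤ ε) ∧
      (∀ v : ℂ, ‖v‖ ≤ 1 →
        ‖p.eval v * q.eval v - ∑ i ∈ Finset.range (K + 1), (a : ℂ) ^ i * v ^ (D K / D i)‖
          ≤ δ + M ^ 2 * ‖v‖ ^ (D K)) := by
  have hmono : StrictMono D := strictMono_nat_of_lt_succ hDlt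
  have hDpos : ∀ i, 0 < D i := fun i => by
    have := hmono.monotone (Nat.zero_le i)
    rw [hD0] at this
    omega
  have hdvd : ∀ i j, i ≤ j → D i ∣ D j := by
    intro i j hij
    induction hij with
    | refl => exact dvd_rfl
    | step _ ih => exact ih.trans (hDdvd _)
  have hM0 : 0 ≤ M := (tsum_nonneg fun _ => norm_nonneg _).trans hgM
  obtain ⟨Tg, hTg⟩ := (summable_iff_vanishing_norm.1 hgs) (ε / 2) (by positivity)
  obtain ⟨Th, hTh⟩ := (summable_iff_vanishing_norm.1 hhs) (ε / 2) (by positivity)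
  refine ⟨(Tg ∪ Th).sup (fun q => q.den), fun k hk δ hδ => ?_⟩
  have hTk : ∀ q ∈ Tg ∪ Th, q.den ∣ D k := fun q hq =>
    hDall _ _ q.den_pos ((Finset.le_sup (f := fun q : ℚ => q.den) hq).trans hk)
  have hεg : ∀ t : Finset ℚ, (∀ q ∈ t, ¬ q.den ∣ D k) → ∑ q ∈ t, ‖g q‖ ≤ ε / 2 := by
    intro t ht
    have := hTg t (Finset.disjoint_left.2 fun q hq hqT =>
      ht q hq (hTk q (Finset.mem_union_left _ hqT)))
    exact (le_abs_self _).trans (by simpa [Real.norm_eq_abs] using this.le)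
  have hεh : ∀ t : Finset ℚ, (∀ q ∈ t, ¬ q.den ∣ D k) → ∑ q ∈ t, ‖h q‖ ≤ ε / 2 := by
    intro t ht
    have := hTh t (Finset.disjoint_left.2 fun q hq hqT =>
      ht q hq (hTk q (Finset.mem_union_right _ hqT)))
    exact (le_abs_self _).trans (by simpa [Real.norm_eq_abs] using this.le)
  set d : ℝ := δ / (4 * (M + 1)) with hd
  have hdpos : 0 < d := by positivity
  obtain ⟨Sg, hSg⟩ := red_choose g hg0 hgs d hdpos
  obtain ⟨Sh, hSh⟩ := red_choose h hh0 hhs d hdpos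
  set S : Finset ℚ := (Sg ∪ Sh).filter (fun q => 0 < q) with hSdef
  have hgd := red_tsum_le (fun q => ‖g q‖) (fun _ => norm_nonneg _) hgs S d
    (hSg S fun q hq h0 => Finset.mem_filter.2 ⟨Finset.mem_union_left _ hq, h0⟩)
  have hhd := red_tsum_le (fun q => ‖h q‖) (fun _ => norm_nonneg _) hhs S d
    (hSh S fun q hq h0 => Finset.mem_filter.2 ⟨Finset.mem_union_right _ hq, h0⟩)
  obtain ⟨K0, hK0⟩ := exists_pow_lt_of_lt_one (show 0 < δ / 2 * (1 - a) by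
    have : 0 < 1 - a := by linarith
    positivity) ha1
  set K : ℕ := max (k + 1) (max (S.sup (fun q => q.den)) K0) with hKdef
  have hK1 : k + 1 ≤ K := le_max_left _ _
  have hK2 : S.sup (fun q => q.den) ≤ K := (le_max_left _ _).trans (le_max_right _ _)
  have hK3 : K0 ≤ K := (le_max_right _ _).trans (le_max_right _ _)
  have hSK : ∀ q ∈ S, 0 < q ∧ q.den ∣ D K := fun q hq =>
    ⟨(Finset.mem_filter.1 hq).2,
      hDall _ _ q.den_pos ((Finset.le_sup (f := fun q : ℚ => q.den) hq).trans hK2)⟩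
  have hDkK : D k ∣ D K := hdvd k K (by omega)
  have hn : 0 < D K / D k := Nat.div_pos (Nat.le_of_dvd (hDpos K) hDkK) (hDpos k)
  have hN : D K = D k * (D K / D k) := (Nat.mul_div_cancel' hDkK).symm
  have hzero : ∀ f : ℚ → ℂ, (redPoly (D K) S f).eval 0 = 0 := by
    intro f
    rw [redPoly_eval]
    refine Finset.sum_eq_zero fun q hq => ?_
    rw [zero_pow (red_exp (D K) (hDpos K) q (hSK q hq).1 (hSK q hq).2).2.ne', mul_zero]
  refine ⟨K, by omega, redPoly (D K) S g, redPoly (D K) S h, hzero g, hzero h, ?_, ?_, ?_⟩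
  · exact fun v hv => ⟨redPoly_bound _ _ _ hgs M hgM v hv, redPoly_bound _ _ _ hhs M hhM v hv⟩
  · exact fun v hv l => ⟨redPoly_rot (D K) _ hn (D k) (hDpos k) hN S hSK g ε hεg v hv l,
      redPoly_rot (D K) _ hn (D k) (hDpos k) hN S hSK h ε hεh v hv l⟩
  · intro v hv
    refine red_prod D hDpos hmono.injective a ha ha1 g h hg0 hh0 hgs hhs M hgM hhM hgh K
      (fun i hi => hdvd i K hi) S hSK d δ hdpos.le hgd hhd ?_ ?_ v hv
    · rw [hd]
      rw [show 2 * M * (δ / (4 * (M + 1))) = δ / 2 * (M / (M + 1)) by field_simp; ring]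
      refine mul_le_of_le_one_right (by positivity) ?_
      rw [div_le_one (by positivity)]; linarith
    · have h1a : 0 < 1 - a := by linarith
      rw [div_le_iff₀ h1a]
      refine le_trans ?_ hK0.le
      exact pow_le_pow_of_le_one ha.le ha1.le (by omega)

end Pool.Agent.L1Q
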