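import Mathlib
set_option autoImplicit false
namespace Pool.Agent.L1Q
open Polynomial Complex

/-- a continuous logarithm of `1` on a preconnected set is constant -/
theorem const_of_exp_eq_one {s : Set ℝ} (hs : IsPreconnected s) (f : ℝ → ℂ)
    (hf : ContinuousOn f s) (h1 : ∀ x ∈ s, exp (f x) = 1) (x y : ℝ) (hx : x ∈ s) (hy : y ∈ s) :
    f x = f y := by
  set g : ℝ → ℝ := fun t => (f t).im / (2 * Real.pi) with hg
  have hpi : (0 : ℝ) < 2 * Real.pi := by positivity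
  have hgc : ContinuousOn g s := by
    apply ContinuousOn.div_const
    exact Complex.continuous_im.comp_continuousOn hf
  have hint : ∀ t ∈ s, ∃ k : ℤ, f t = k * (2 * Real.pi * I) ∧ g t = k := by
    intro t ht
    obtain ⟨k, hk⟩ := Complex.exp_eq_one_iff.1 (h1 t ht)
    refine ⟨k, hk, ?_⟩
    have : (f t).im = k * (2 * Real.pi) := by
      rw [hk]
      simp
    simp only [hg, this]
    field_simp
  have key : ∀ a b : ℝ, a ∈ s → b ∈ s → ¬ (g a < g b) := by
    intro a b ha hb hlt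
    obtain ⟨ka, -, hka⟩ := hint a ha
    obtain ⟨kb, -, hkb⟩ := hint b hb
    have hkk : ka < kb := by
      rw [hka, hkb] at hlt
      exact_mod_cast hlt
    have hkk' : (ka : ℝ) + 1 ≤ kb := by exact_mod_cast hkk
    have hmem : ((ka : ℝ) + 1 / 2) ∈ Set.Icc (g a) (g b) := by
      rw [hka, hkb]
      constructor <;> linarith
    obtain ⟨c, hc, hgc'⟩ := hs.intermediate_value ha hb hgc hmem
    obtain ⟨kc, -, hkc⟩ := hint c hc
    rw [hkc] at hgc'
    have h2 : (2 * kc : ℝ) = 2 * ka + 1 := by linarith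
    have h3 : (2 * kc : ℤ) = 2 * ka + 1 := by exact_mod_cast h2
    omega
  have hgeq : g x = g y := by
    apply le_antisymm
    · exact not_lt.1 (key y x hy hx)
    · exact not_lt.1 (key x y hx hy)
  obtain ⟨ka, hfa, hka⟩ := hint x hx
  obtain ⟨kb, hfb, hkb⟩ := hint y hy
  have : ka = kb := by
    rw [hka, hkb] at hgeq
    exact_mod_cast hgeq
  rw [hfa, hfb, this]

theorem near_div {a b : ℂ} (hb : b ≠ 0) (h : ‖a - b‖ ≤ ‖b‖ / 4) : 0 < (a / b).re := by
  have h1 : ‖a / b - 1‖ ≤ 1 / 4 := by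
    have : a / b - 1 = (a - b) / b := by field_simp
    rw [this, norm_div, div_le_iff₀ (norm_pos_iff.2 hb)]
    linarith
  have h2 : |(a / b - 1).re| ≤ ‖a / b - 1‖ := Complex.abs_re_le_norm _
  have h3 : (a / b - 1).re = (a / b).re - 1 := by simp
  rw [h3] at h2
  have := abs_le.1 (h2.trans h1)
  linarith [this.1]

theorem log_mul_of_re_pos {a b : ℂ} (ha : 0 < a.re) (hb : 0 < b.re) :
    log (a * b) = log a + log b := by
  have ha0 : a ≠ 0 := by rintro rfl; simp at ha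
  have hb0 : b ≠ 0 := by rintro rfl; simp at hb
  rw [Complex.log_mul_eq_add_log_iff ha0 hb0]
  have h1 : |arg a| < Real.pi / 2 := Complex.abs_arg_lt_pi_div_two_iff.2 (Or.inl ha)
  have h2 : |arg b| < Real.pi / 2 := Complex.abs_arg_lt_pi_div_two_iff.2 (Or.inl hb)
  rw [abs_lt] at h1 h2
  constructor <;> linarith [h1.1, h1.2, h2.1, h2.2]

theorem exp_sum_log_ratio (q : ℕ → ℂ) (hq : ∀ l, q l ≠ 0) (n : ℕ) :
    exp (∑ l ∈ Finset.range n, log (q (l + 1) / q l)) = q n / q 0 := by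
  induction n with
  | zero => simp [hq 0]
  | succ k ih =>
    rw [Finset.sum_range_succ, exp_add, ih, Complex.exp_log (div_ne_zero (hq _) (hq _))]
    field_simp [hq k, hq 0]

theorem dvd_of_rotation (p : ℂ[X]) (n m : ℕ) (hn : 1 ≤ n) (ρ ρ₀ : ℝ) (hρ : 0 < ρ) (hρ₀ : ρ ≤ ρ₀)
    (E : ℝ → ℂ) (hEc : Continuous E) (hEp : ∀ t, E (t + 2 * Real.pi) = E t)
    (hE : ∀ t : ℝ, p.eval (ρ * exp (t * I)) = exp ((m : ℂ) * (t * I) + E t))
    (hcirc : ∀ v : ℂ, ‖v‖ = ρ → p.eval v ≠ 0 ∧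
      ‖p.eval (exp (2 * Real.pi * I / n) * v) - p.eval v‖ ≤ ‖p.eval v‖ / 4)
    (hray : ∀ x : ℝ, ρ ≤ x → x ≤ ρ₀ → ∀ l : ℕ, p.eval (x * exp (2 * Real.pi * I / n) ^ l) ≠ 0 ∧
      ‖p.eval (x * exp (2 * Real.pi * I / n) ^ (l + 1)) - p.eval (x * exp (2 * Real.pi * I / n) ^ l)‖
        ≤ ‖p.eval (x * exp (2 * Real.pi * I / n) ^ l)‖ / 4)
    (hout : ∀ l : ℕ, ‖p.eval (ρ₀ * exp (2 * Real.pi * I / n) ^ l) - p.eval (ρ₀ : ℂ)‖
        ≤ ‖p.eval (ρ₀ : ℂ)‖ / 4) :
    n ∣ m := by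
  have hn0 : (n : ℂ) ≠ 0 := by exact_mod_cast (by omega : n ≠ 0)
  set w : ℂ := exp (2 * Real.pi * I / n) with hw
  have hwn : w ^ n = 1 := by
    rw [hw, ← Complex.exp_nat_mul, mul_div_cancel₀ _ hn0]
    exact Complex.exp_two_pi_mul_I
  have hwl : ∀ l : ℕ, w ^ l = exp (((2 * Real.pi * l / n : ℝ) : ℂ) * I) := by
    intro l
    rw [hw, ← Complex.exp_nat_mul]
    congr 1
    push_cast
    ring
  have hwnorm : ‖w‖ = 1 := by
    have := hwl 1
    rw [pow_one] at this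
    rw [this]
    exact Complex.norm_exp_ofReal_mul_I _
  have hpc : Continuous fun v : ℂ => p.eval v := p.continuous
  -- rays
  have hS : ∀ x : ℝ, ρ ≤ x → x ≤ ρ₀ →
      exp (∑ l ∈ Finset.range n, log (p.eval (x * w ^ (l + 1)) / p.eval (x * w ^ l))) = 1 := by
    intro x h1 h2
    rw [exp_sum_log_ratio (fun l => p.eval (x * w ^ l)) (fun l => (hray x h1 h2 l).1) n]
    rw [hwn, pow_zero]
    have := (hray x h1 h2 0).1
    rw [pow_zero] at this
    exact div_self this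
  have hScont : ContinuousOn (fun x : ℝ =>
      ∑ l ∈ Finset.range n, log (p.eval (x * w ^ (l + 1)) / p.eval (x * w ^ l))) (Set.Icc ρ ρ₀) := by
    apply continuousOn_finsetSum
    intro l _
    apply ContinuousOn.clog
    · apply ContinuousOn.div
      · exact (hpc.comp (by fun_prop)).continuousOn
      · exact (hpc.comp (by fun_prop)).continuousOn
      · intro x hx
        exact (hray x hx.1 hx.2 l).1
    · intro x hx
      left
      exact near_div (hray x hx.1 hx.2 l).1 (hray x hx.1 hx.2 l).2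
  have hS0 : ∀ k : ℕ, ∑ l ∈ Finset.range k, log (p.eval ((ρ₀ : ℂ) * w ^ (l + 1)) / p.eval ((ρ₀ : ℂ) * w ^ l))
      = log (p.eval ((ρ₀ : ℂ) * w ^ k) / p.eval (ρ₀ : ℂ)) := by
    have h00 : p.eval (ρ₀ : ℂ) ≠ 0 := by
      have := (hray ρ₀ hρ₀ le_rfl 0).1
      rwa [pow_zero, mul_one] at this
    intro k
    induction k with
    | zero => simp [h00]
    | succ k ih =>
      rw [Finset.sum_range_succ, ih]
      have hk := hray ρ₀ hρ₀ le_rfl k
      have h1 : 0 < (p.eval ((ρ₀ : ℂ) * w ^ k) / p.eval (ρ₀ : ℂ)).re := near_div h00 (hout k)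
      have h2 : 0 < (p.eval ((ρ₀ : ℂ) * w ^ (k + 1)) / p.eval ((ρ₀ : ℂ) * w ^ k)).re :=
        near_div hk.1 hk.2
      rw [← log_mul_of_re_pos h1 h2]
      congr 1
      field_simp [hk.1, h00]
  have hSρ : ∑ l ∈ Finset.range n, log (p.eval ((ρ : ℂ) * w ^ (l + 1)) / p.eval ((ρ : ℂ) * w ^ l)) = 0 := by
    have h1 := const_of_exp_eq_one isPreconnected_Icc _ hScont (fun x hx => hS x hx.1 hx.2) ρ ρ₀
      ⟨le_rfl, hρ₀⟩ ⟨hρ₀, le_rfl⟩
    rw [h1, hS0 n, hwn, mul_one, div_self, Complex.log_one]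
    have := (hray ρ₀ hρ₀ le_rfl 0).1
    rwa [pow_zero, mul_one] at this
  -- the circle
  have hcn : ∀ (t : ℝ) (l : ℕ), ‖(ρ : ℂ) * exp (t * I) * w ^ l‖ = ρ := by
    intro t l
    rw [norm_mul, norm_mul, norm_pow, hwnorm, one_pow, mul_one, Complex.norm_exp_ofReal_mul_I,
      mul_one, Complex.norm_real, Real.norm_of_nonneg hρ.le]
  have hcr : ∀ (t : ℝ) (l : ℕ), p.eval ((ρ : ℂ) * exp (t * I) * w ^ l) ≠ 0 ∧
      ‖p.eval ((ρ : ℂ) * exp (t * I) * w ^ (l + 1)) - p.eval ((ρ : ℂ) * exp (t * I) * w ^ l)‖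
        ≤ ‖p.eval ((ρ : ℂ) * exp (t * I) * w ^ l)‖ / 4 := by
    intro t l
    have := hcirc _ (hcn t l)
    refine ⟨this.1, ?_⟩
    have h2 : (ρ : ℂ) * exp (t * I) * w ^ (l + 1) = w * ((ρ : ℂ) * exp (t * I) * w ^ l) := by ring
    rw [h2]
    exact this.2
  have hlogc : ∀ l : ℕ, Continuous (fun t : ℝ =>
      log (p.eval ((ρ : ℂ) * exp (t * I) * w ^ (l + 1)) / p.eval ((ρ : ℂ) * exp (t * I) * w ^ l))) := by
    intro l
    apply Continuous.clog
    · apply Continuous.div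
      · exact (hpc.comp (by fun_prop))
      · exact (hpc.comp (by fun_prop))
      · intro t
        exact (hcr t l).1
    · intro t
      left
      exact near_div (hcr t l).1 (hcr t l).2
  -- A
  set A : ℝ → ℂ := fun t => (m : ℂ) * (2 * Real.pi / n * I) + E (t + 2 * Real.pi / n) - E t
    - log (p.eval ((ρ : ℂ) * exp (t * I) * w ^ (0 + 1)) / p.eval ((ρ : ℂ) * exp (t * I) * w ^ 0)) with hA
  have hAc : Continuous A := by
    have h1 := hlogc 0
    have h2 : Continuous fun t : ℝ => E (t + 2 * Real.pi / n) := hEc.comp (by fun_prop)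
    exact ((continuous_const.add h2).sub hEc).sub h1
  have hexpw : ∀ t : ℝ, exp (t * I) * w = exp (((t + 2 * Real.pi / n : ℝ) : ℂ) * I) := by
    intro t
    rw [hw, ← Complex.exp_add]
    congr 1
    push_cast
    ring
  have hA1 : ∀ t : ℝ, exp (A t) = 1 := by
    intro t
    simp only [hA]
    rw [Complex.exp_sub, Complex.exp_log (div_ne_zero (hcr t _).1 (hcr t _).1)]
    have e1 : p.eval ((ρ : ℂ) * exp (t * I) * w ^ (0 + 1))
        = exp ((m : ℂ) * (((t + 2 * Real.pi / n : ℝ) : ℂ) * I) + E (t + 2 * Real.pi / n)) := by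
      rw [← hE, zero_add, pow_one, mul_assoc, hexpw]
    have e2 : p.eval ((ρ : ℂ) * exp (t * I) * w ^ 0) = exp ((m : ℂ) * (t * I) + E t) := by
      rw [← hE, pow_zero, mul_one]
    rw [e1, e2, ← Complex.exp_sub, ← Complex.exp_sub, Complex.exp_eq_one_iff]
    refine ⟨0, ?_⟩
    push_cast
    ring
  have hAconst : ∀ t : ℝ, A t = A 0 := by
    intro t
    exact const_of_exp_eq_one isPreconnected_univ A hAc.continuousOn (fun x _ => hA1 x) t 0
      (Set.mem_univ _) (Set.mem_univ _)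
  obtain ⟨c, hc⟩ := Complex.exp_eq_one_iff.1 (hA1 0)
  -- sum over the rotations
  have hpt : ∀ l : ℕ, exp (((2 * Real.pi * l / n : ℝ) : ℂ) * I) = w ^ l := fun l => (hwl l).symm
  have hsum : ∑ l ∈ Finset.range n, A (2 * Real.pi * l / n) = 2 * Real.pi * I * m := by
    have hAl : ∀ l : ℕ, A (2 * Real.pi * l / n) = (m : ℂ) * (2 * Real.pi / n * I)
        + (E (2 * Real.pi * ((l + 1 : ℕ) : ℝ) / n) - E (2 * Real.pi * (l : ℝ) / n))
        - log (p.eval ((ρ : ℂ) * w ^ (l + 1)) / p.eval ((ρ : ℂ) * w ^ l)) := by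
      intro l
      simp only [hA]
      rw [hpt l]
      have e1 : (2 * Real.pi * (l : ℝ) / n + 2 * Real.pi / n) = 2 * Real.pi * ((l + 1 : ℕ) : ℝ) / n := by
        push_cast; ring
      rw [e1]
      have e2 : (ρ : ℂ) * w ^ l * w ^ (0 + 1) = (ρ : ℂ) * w ^ (l + 1) := by ring
      rw [e2, pow_zero, mul_one]
      ring
    rw [Finset.sum_congr rfl fun l _ => hAl l, Finset.sum_sub_distrib, hSρ, sub_zero,
      Finset.sum_add_distrib,
      Finset.sum_range_sub (fun l : ℕ => E (2 * Real.pi * (l : ℝ) / n)), Finset.sum_const,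
      Finset.card_range, nsmul_eq_mul]
    have e3 : E (2 * Real.pi * (n : ℝ) / n) = E (2 * Real.pi * ((0 : ℕ) : ℝ) / n) := by
      have hn0' : (n : ℝ) ≠ 0 := by exact_mod_cast (by omega : n ≠ 0)
      have e4 : 2 * Real.pi * (n : ℝ) / n = 2 * Real.pi * ((0 : ℕ) : ℝ) / n + 2 * Real.pi := by
        rw [mul_div_assoc, div_self hn0']
        simp
      rw [e4, hEp]
    rw [e3, sub_self, add_zero]
    field_simp
  have hsum2 : ∑ l ∈ Finset.range n, A (2 * Real.pi * (l : ℝ) / n) = n * (c * (2 * Real.pi * I)) := by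
    rw [Finset.sum_congr rfl (fun (l : ℕ) _ => hAconst (2 * Real.pi * (l : ℝ) / n)), Finset.sum_const,
      Finset.card_range, nsmul_eq_mul, hc]
  have h2pi : (2 * Real.pi * I : ℂ) ≠ 0 := Complex.two_pi_I_ne_zero
  have h3 : ((n : ℂ) * c) = m := by
    have : (2 * Real.pi * I : ℂ) * ((n : ℂ) * c) = (2 * Real.pi * I : ℂ) * m := by
      rw [← hsum, hsum2]; ring
    exact mul_left_cancel₀ h2pi this
  have h4 : (n : ℤ) * c = m := by exact_mod_cast h3
  have h5 : (n : ℤ) ∣ (m : ℤ) := ⟨c, h4.symm⟩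
  exact Int.natCast_dvd_natCast.1 h5

end Pool.Agent.L1Q
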