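import Mathlib
set_option autoImplicit false
namespace Pool.Agent.L1Q
open Complex Metric

/-- local lemma in the disc: `φ = P Q` close to `m₀ e^{-u} + const`; then `P` and `Q` do not both vanish
in the disc of radius `1/4` and `φ` is not small on its boundary. -/
theorem local_disc (P Q : ℂ → ℂ) (hP : Differentiable ℂ P) (hQ : Differentiable ℂ Q)
    (m₀ c₀ : ℂ) (s : ℝ) (hs : 0 < s) (hm : 33 * s ≤ ‖m₀‖)
    (hr : ∀ u : ℂ, ‖u‖ ≤ 1 → ‖P u * Q u - m₀ * exp (-u) - c₀‖ ≤ s / 4)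
    (h0 : ‖P 0 * Q 0‖ ≤ s) :
    (∀ u : ℂ, ‖u‖ = 1 / 4 → 3 * s ≤ ‖P u * Q u‖) ∧
    ((∀ u : ℂ, ‖u‖ ≤ 1 / 4 → P u ≠ 0) ∨ (∀ u : ℂ, ‖u‖ ≤ 1 / 4 → Q u ≠ 0)) := by
  set r : ℂ → ℂ := fun u => P u * Q u - m₀ * exp (-u) - c₀ with hrdef
  have hrd : Differentiable ℂ r := by
    have e1 : Differentiable ℂ fun u : ℂ => exp (-u) := differentiable_exp.comp differentiable_neg
    exact ((hP.mul hQ).sub (e1.const_mul m₀)).sub (differentiable_const _)
  have hr' : ∀ u : ℂ, ‖u‖ ≤ 1 / 4 → ‖deriv r u‖ ≤ s / 3 := by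
    intro u hu
    have h3 := Complex.norm_deriv_le_of_forall_mem_sphere_norm_le (c := u) (R := 3 / 4) (C := s / 4)
      (f := r) (by norm_num) hrd.diffContOnCl (by
        intro z hz
        apply hr
        have : ‖z - u‖ = 3 / 4 := by simpa [dist_eq_norm] using hz
        calc ‖z‖ = ‖(z - u) + u‖ := by ring_nf
          _ ≤ ‖z - u‖ + ‖u‖ := norm_add_le _ _
          _ ≤ 1 := by linarith)
    calc _ ≤ _ := h3
      _ = s / 3 := by ring
  set ψ : ℂ → ℂ := fun u => P u * Q u + m₀ * u with hψdef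
  have hψd : Differentiable ℂ ψ := (hP.mul hQ).add (differentiable_id.const_mul m₀)
  have hψeq : ∀ u, ψ u = r u + m₀ * (exp (-u) + u) + c₀ := by
    intro u; simp only [hψdef, hrdef]; ring
  have hψ' : ∀ u : ℂ, ‖u‖ ≤ 1 / 4 → ‖deriv ψ u‖ ≤ ‖m₀‖ / 2 + s / 3 := by
    intro u hu
    have e1 : HasDerivAt (fun u : ℂ => exp (-u)) (-exp (-u)) u := by
      have := (hasDerivAt_neg u).cexp
      simpa using this
    have e2 : HasDerivAt (fun u : ℂ => r u + m₀ * (exp (-u) + u) + c₀)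
        (deriv r u + m₀ * (-exp (-u) + 1)) u := by
      have := ((hrd u).hasDerivAt.add (((e1.add (hasDerivAt_id u))).const_mul m₀)).add_const c₀
      simpa using this
    have e3 : deriv ψ u = deriv r u + m₀ * (-exp (-u) + 1) := by
      have : ψ = fun u => r u + m₀ * (exp (-u) + u) + c₀ := funext hψeq
      rw [this]; exact e2.deriv
    rw [e3]
    have e4 : ‖-exp (-u) + 1‖ ≤ 1 / 2 := by
      have h5 := Complex.norm_exp_sub_one_le (x := -u) (by rw [norm_neg]; linarith)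
      have h6 : ‖-exp (-u) + 1‖ = ‖exp (-u) - 1‖ := by
        rw [← norm_neg]; ring_nf
      rw [h6]
      rw [norm_neg] at h5
      linarith
    calc ‖deriv r u + m₀ * (-exp (-u) + 1)‖ ≤ ‖deriv r u‖ + ‖m₀‖ * ‖-exp (-u) + 1‖ := by
          refine (norm_add_le _ _).trans ?_
          rw [norm_mul]
      _ ≤ s / 3 + ‖m₀‖ * (1 / 2) := by
          have := hr' u hu
          gcongr
      _ = _ := by ring
  have hm0 : 0 < ‖m₀‖ := by linarith
  -- Lipschitz estimate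
  have hlip : ∀ u u' : ℂ, ‖u‖ ≤ 1 / 4 → ‖u'‖ ≤ 1 / 4 →
      16 * s * ‖u - u'‖ ≤ ‖P u * Q u - P u' * Q u'‖ := by
    intro u u' hu hu'
    have h5 : ‖ψ u - ψ u'‖ ≤ (‖m₀‖ / 2 + s / 3) * ‖u - u'‖ := by
      refine (convex_closedBall (0:ℂ) (1 / 4)).norm_image_sub_le_of_norm_deriv_le
        (fun x _ => hψd x) (fun x hx => hψ' x (by simpa using hx)) ?_ ?_
      · simpa using hu'
      · simpa using hu
    have h6 : ψ u - ψ u' = (P u * Q u - P u' * Q u') + m₀ * (u - u') := by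
      simp only [hψdef]; ring
    have h7 : ‖m₀‖ * ‖u - u'‖ ≤ ‖P u * Q u - P u' * Q u'‖ + ‖ψ u - ψ u'‖ := by
      have : m₀ * (u - u') = (ψ u - ψ u') - (P u * Q u - P u' * Q u') := by rw [h6]; ring
      rw [← norm_mul, this]
      refine (norm_sub_le _ _).trans ?_
      linarith
    nlinarith [norm_nonneg (u - u')]
  refine ⟨?_, ?_⟩
  · intro u hu
    have h5 := hlip u 0 hu.le (by norm_num)
    rw [sub_zero, hu] at h5
    have h6 : ‖P u * Q u - P 0 * Q 0‖ ≤ ‖P u * Q u‖ + ‖P 0 * Q 0‖ := norm_sub_le _ _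
    linarith
  · by_contra hcon
    push Not at hcon
    obtain ⟨⟨u₁, hu₁, hPu⟩, ⟨u₂, hu₂, hQu⟩⟩ := hcon
    have h5 := hlip u₁ u₂ hu₁ hu₂
    rw [hPu, hQu] at h5
    simp only [zero_mul, mul_zero, sub_self, norm_zero] at h5
    have h6 : ‖u₁ - u₂‖ = 0 := by
      have := norm_nonneg (u₁ - u₂)
      nlinarith
    have h7 : u₁ = u₂ := by rwa [norm_sub_eq_zero_iff] at h6
    subst h7
    have h8 : deriv ψ u₁ = m₀ := by
      have e1 : HasDerivAt ψ (deriv P u₁ * Q u₁ + P u₁ * deriv Q u₁ + m₀ * 1) u₁ :=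
        ((hP u₁).hasDerivAt.mul (hQ u₁).hasDerivAt).add ((hasDerivAt_id u₁).const_mul m₀)
      rw [e1.deriv, hPu, hQu]; ring
    have h9 := hψ' u₁ hu₁
    rw [h8] at h9
    linarith

/-- maximum principle for the ratio. -/
theorem ratio_disc (A P : ℂ → ℂ) (hA : Differentiable ℂ A) (hP : Differentiable ℂ P)
    (hP0 : ∀ u : ℂ, ‖u‖ ≤ 1 / 4 → P u ≠ 0)
    (hs : ∀ u : ℂ, ‖u‖ = 1 / 4 → ‖A u - P u‖ ≤ ‖P u‖ / 100) :
    ‖A 0 - P 0‖ ≤ ‖P 0‖ / 100 := by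
  have h14 : (1 / 4 : ℝ) ≠ 0 := by norm_num
  have hd : DiffContOnCl ℂ (fun u => (A u - P u) / P u) (ball (0:ℂ) (1 / 4)) := by
    apply DifferentiableOn.diffContOnCl
    rw [closure_ball _ h14]
    intro u hu
    have h1 : P u ≠ 0 := hP0 u (by simpa using hu)
    exact (((hA u).sub (hP u)).div (hP u) h1).differentiableWithinAt
  have h := Complex.norm_le_of_forall_mem_frontier_norm_le (z := (0:ℂ)) (C := 1 / 100)
    isBounded_ball hd (by
      intro z hz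
      rw [frontier_ball _ h14] at hz
      have hz' : ‖z‖ = 1 / 4 := by simpa using hz
      have h1 : 0 < ‖P z‖ := norm_pos_iff.2 (hP0 z hz'.le)
      rw [norm_div, div_le_iff₀ h1]
      have := hs z hz'
      linarith) (by
      rw [closure_ball _ h14]; simp)
  have h1 : 0 < ‖P 0‖ := norm_pos_iff.2 (hP0 0 (by simp))
  rw [norm_div, div_le_iff₀ h1] at h
  linarith

theorem other_ratio (p₀ p₁ q₀ q₁ : ℂ) (hne : p₀ * q₀ ≠ 0) (h1 : ‖p₁ - p₀‖ ≤ ‖p₀‖ / 100)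
    (h2 : ‖p₁ * q₁ - p₀ * q₀‖ ≤ ‖p₀ * q₀‖ / 100) : ‖q₁ - q₀‖ ≤ ‖q₀‖ / 4 := by
  have hp : 0 < ‖p₀‖ := norm_pos_iff.2 (left_ne_zero_of_mul hne)
  have hq : 0 < ‖q₀‖ := norm_pos_iff.2 (right_ne_zero_of_mul hne)
  have h3 : p₁ * (q₁ - q₀) = (p₁ * q₁ - p₀ * q₀) - (p₁ - p₀) * q₀ := by ring
  have h4 : ‖p₁‖ * ‖q₁ - q₀‖ ≤ ‖p₀‖ * ‖q₀‖ / 100 + ‖p₀‖ / 100 * ‖q₀‖ := by
    rw [← norm_mul, h3]
    refine (norm_sub_le _ _).trans ?_
    rw [norm_mul (p₁ - p₀), ← norm_mul p₀ q₀]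
    gcongr
  have h5 : ‖p₀‖ * (99 / 100) ≤ ‖p₁‖ := by
    have : ‖p₀‖ ≤ ‖p₁‖ + ‖p₁ - p₀‖ := by
      have := norm_sub_le p₁ (p₁ - p₀)
      rwa [sub_sub_cancel] at this
    linarith
  have h6 : ‖p₀‖ * (99 / 100) * ‖q₁ - q₀‖ ≤ ‖p₁‖ * ‖q₁ - q₀‖ := by gcongr
  have h7 : ‖p₀‖ * ((99 / 100) * ‖q₁ - q₀‖) ≤ ‖p₀‖ * (‖q₀‖ / 50) := by
    calc _ = ‖p₀‖ * (99 / 100) * ‖q₁ - q₀‖ := by ring
      _ ≤ _ := h6.trans (h4.trans (by ring_nf; exact le_refl _))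
  have h8 := le_of_mul_le_mul_left h7 hp
  linarith

/-- B: ratio bound in a zone. -/
theorem zone_ratio (p q G : ℂ → ℂ) (hp : Differentiable ℂ p) (hq : Differentiable ℂ q) (ω : ℂ)
    (N : ℕ) (hN : 1 ≤ N) (c ρ R κ θ : ℝ) (hc : 0 < c) (hρ0 : 0 < ρ) (hρ1 : ρ ≤ 1)
    (hρN : 1 / 2 ≤ ρ ^ N) (hκ : κ ≤ 3 / 10 ^ 6) (hθ : 0 < θ)
    (H1 : ∀ v : ℂ, ‖v‖ ≤ ρ → ‖p v * q v - c * v ^ N - G v‖ ≤ c / 80000)
    (H2a : ∀ v : ℂ, ‖v‖ ≤ 1 → ‖G v‖ ≤ c * 102 / 10 ^ 4)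
    (H2b : ∀ v : ℂ, R ≤ ‖v‖ → ‖v‖ ≤ 1 → c * 35 / 10 ^ 4 ≤ ‖G v‖)
    (H3 : ∀ v u : ℂ, ‖v‖ ≤ 1 → ‖u‖ ≤ 1 → ‖v * exp (-u / N)‖ ≤ 1 →
      ‖G (v * exp (-u / N)) - G v‖ ≤ c / 80000)
    (I1 : ∀ v : ℂ, ‖v‖ ≤ ρ → ‖(p (ω * v) - p v) * q v‖ ≤ κ * c)
    (I2 : ∀ v : ℂ, ‖v‖ ≤ ρ → ‖(q (ω * v) - q v) * p v‖ ≤ κ * c)
    (H6 : ∀ v : ℂ, R ≤ ‖v‖ → ‖v‖ ≤ ρ → ‖p (ω * v) * q (ω * v) - p v * q v‖ ≤ θ / 100) :
    ∀ v : ℂ, R ≤ ‖v‖ → ‖v‖ ≤ ρ → θ ≤ ‖p v * q v‖ →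
      ‖p (ω * v) - p v‖ ≤ ‖p v‖ / 4 ∧ ‖q (ω * v) - q v‖ ≤ ‖q v‖ / 4 := by
  intro v₀ hvR hvρ hvθ
  have hv1 : ‖v₀‖ ≤ 1 := hvρ.trans hρ1
  have hf0 : 0 < ‖p v₀ * q v₀‖ := hθ.trans_le hvθ
  have hpq : p v₀ * q v₀ ≠ 0 := norm_pos_iff.1 hf0
  have hp0 : 0 < ‖p v₀‖ := norm_pos_iff.2 (left_ne_zero_of_mul hpq)
  have hq0 : 0 < ‖q v₀‖ := norm_pos_iff.2 (right_ne_zero_of_mul hpq)
  have hN0 : (N : ℂ) ≠ 0 := by exact_mod_cast (by omega : N ≠ 0)
  set s : ℝ := c / 10 ^ 4 with hsdef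
  have hs : 0 < s := by positivity
  rcases le_or_gt s ‖p v₀ * q v₀‖ with hcase | hcase
  · -- case 1
    have e1 := I1 v₀ hvρ
    have e2 := I2 v₀ hvρ
    rw [norm_mul] at e1 e2
    have e3 : κ * c ≤ (3 / 100) * ‖p v₀ * q v₀‖ := by
      have : κ * c ≤ (3 / 10 ^ 6) * c := by gcongr
      have h4 : (3 / 10 ^ 6) * c = (3 / 100) * s := by rw [hsdef]; ring
      rw [h4] at this
      exact this.trans (by gcongr)
    rw [norm_mul] at e3
    constructor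
    · have : ‖p (ω * v₀) - p v₀‖ * ‖q v₀‖ ≤ (‖p v₀‖ / 4) * ‖q v₀‖ := by nlinarith [mul_pos hp0 hq0]
      exact le_of_mul_le_mul_right this hq0
    · have : ‖q (ω * v₀) - q v₀‖ * ‖p v₀‖ ≤ (‖q v₀‖ / 4) * ‖p v₀‖ := by nlinarith [mul_pos hp0 hq0]
      exact le_of_mul_le_mul_right this hp0
  · -- case 2
    set e : ℂ → ℂ := fun u => v₀ * exp (-u / N) with hedef
    have hed : Differentiable ℂ e := by
      have : Differentiable ℂ fun u : ℂ => exp (-u / N) :=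
        differentiable_exp.comp (differentiable_neg.div_const _)
      exact this.const_mul v₀
    have he0 : e 0 = v₀ := by simp [hedef]
    have hm₀u : ‖(c : ℂ) * v₀ ^ N‖ ≤ 104 * s := by
      have h1 := H1 v₀ hvρ
      have h2 := H2a v₀ hv1
      have h3 : (c : ℂ) * v₀ ^ N = p v₀ * q v₀ - G v₀ - (p v₀ * q v₀ - c * v₀ ^ N - G v₀) := by ring
      rw [h3]
      refine (norm_sub_le _ _).trans ?_
      have h4 := norm_sub_le (p v₀ * q v₀) (G v₀)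
      have h5 : c / 80000 = s / 8 := by rw [hsdef]; ring
      have h6 : c * 102 / 10 ^ 4 = 102 * s := by rw [hsdef]; ring
      rw [h5] at h1
      rw [h6] at h2
      linarith
    have hm₀l : 33 * s ≤ ‖(c : ℂ) * v₀ ^ N‖ := by
      have h1 := H1 v₀ hvρ
      have h2 := H2b v₀ hvR hv1
      have h3 : G v₀ = p v₀ * q v₀ - (c : ℂ) * v₀ ^ N - (p v₀ * q v₀ - c * v₀ ^ N - G v₀) := by ring
      have h4 : ‖G v₀‖ ≤ ‖p v₀ * q v₀‖ + ‖(c : ℂ) * v₀ ^ N‖ + ‖p v₀ * q v₀ - c * v₀ ^ N - G v₀‖ := by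
        conv_lhs => rw [h3]
        refine (norm_sub_le _ _).trans ?_
        have := norm_sub_le (p v₀ * q v₀) ((c : ℂ) * v₀ ^ N)
        linarith
      have h5 : c / 80000 = s / 8 := by rw [hsdef]; ring
      have h6 : c * 35 / 10 ^ 4 = 35 * s := by rw [hsdef]; ring
      rw [h5] at h1
      rw [h6] at h2
      linarith
    have hvN : ‖v₀‖ ^ N ≤ 104 / 10 ^ 4 := by
      rw [norm_mul, norm_pow, Complex.norm_real, Real.norm_of_nonneg hc.le] at hm₀u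
      have : 104 * s = c * (104 / 10 ^ 4) := by rw [hsdef]; ring
      rw [this] at hm₀u
      exact le_of_mul_le_mul_left hm₀u hc
    have hexpN : ∀ u : ℂ, exp (-u / N) ^ N = exp (-u) := by
      intro u
      rw [← Complex.exp_nat_mul]
      congr 1
      field_simp
    have heρ : ∀ u : ℂ, ‖u‖ ≤ 1 → ‖e u‖ ≤ ρ := by
      intro u hu
      have h1 : ‖e u‖ ^ N ≤ ρ ^ N := by
        rw [hedef]
        simp only
        rw [norm_mul, mul_pow, ← norm_pow (exp (-u / N)), hexpN]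
        have h2 : ‖exp (-u)‖ ≤ 3 := by
          rw [Complex.norm_exp]
          have h3 : (-u).re ≤ 1 := (Complex.re_le_norm _).trans (by rwa [norm_neg])
          have h4 : Real.exp ((-u).re) ≤ Real.exp 1 := Real.exp_le_exp.2 h3
          have h5 := Real.exp_one_lt_d9
          linarith
        have h6 : ‖v₀‖ ^ N * ‖exp (-u)‖ ≤ (104 / 10 ^ 4) * 3 := by gcongr
        refine h6.trans (le_trans ?_ hρN)
        norm_num
      exact le_of_pow_le_pow_left₀ (by omega) hρ0.le h1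
    have hloc := local_disc (fun u => p (e u)) (fun u => q (e u)) (hp.comp hed) (hq.comp hed)
      ((c : ℂ) * v₀ ^ N) (G v₀) s hs hm₀l (by
        intro u hu
        have h1 := H1 (e u) (heρ u hu)
        have h2 := H3 v₀ u hv1 hu ((heρ u hu).trans hρ1)
        have h3 : p (e u) * q (e u) - c * v₀ ^ N * exp (-u) - G v₀
            = (p (e u) * q (e u) - c * (e u) ^ N - G (e u)) + (G (v₀ * exp (-u / N)) - G v₀) := by
          have : (e u) ^ N = v₀ ^ N * exp (-u) := by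
            simp only [hedef]; rw [mul_pow, hexpN]
          rw [this]; simp only [hedef]; ring
        rw [h3]
        refine (norm_add_le _ _).trans ?_
        have h5 : c / 80000 = s / 8 := by rw [hsdef]; ring
        rw [h5] at h1 h2
        linarith) (by
        simp only [he0]; exact hcase.le)
    obtain ⟨hsph, hor⟩ := hloc
    have hpωd : Differentiable ℂ fun u => p (ω * e u) := hp.comp (hed.const_mul ω)
    have hqωd : Differentiable ℂ fun u => q (ω * e u) := hq.comp (hed.const_mul ω)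
    have hκc : κ * c ≤ 3 * s / 100 := by
      have : κ * c ≤ (3 / 10 ^ 6) * c := by gcongr
      refine this.trans (le_of_eq ?_)
      rw [hsdef]; ring
    have h6 := H6 v₀ hvR hvρ
    have h6' : ‖p (ω * v₀) * q (ω * v₀) - p v₀ * q v₀‖ ≤ ‖p v₀ * q v₀‖ / 100 := by linarith
    rcases hor with hP | hQ
    · have h7 := ratio_disc (fun u => p (ω * e u)) (fun u => p (e u)) hpωd (hp.comp hed) hP (by
        intro u hu
        have h1 := I1 (e u) (heρ u (by linarith))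
        have h2 := hsph u hu
        rw [norm_mul] at h1 h2
        have h3 : 0 < ‖p (e u)‖ * ‖q (e u)‖ := by linarith
        have h4 : 0 < ‖q (e u)‖ := pos_of_mul_pos_right h3 (norm_nonneg _)
        have h5 : ‖p (ω * e u) - p (e u)‖ * ‖q (e u)‖ ≤ (‖p (e u)‖ / 100) * ‖q (e u)‖ := by linarith
        exact le_of_mul_le_mul_right h5 h4)
      simp only [he0] at h7
      exact ⟨h7.trans (by linarith), other_ratio _ _ _ _ hpq h7 h6'⟩
    · have h7 := ratio_disc (fun u => q (ω * e u)) (fun u => q (e u)) hqωd (hq.comp hed) hQ (by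
        intro u hu
        have h1 := I2 (e u) (heρ u (by linarith))
        have h2 := hsph u hu
        rw [norm_mul] at h1 h2
        have h3 : 0 < ‖p (e u)‖ * ‖q (e u)‖ := by linarith
        have h4 : 0 < ‖p (e u)‖ := pos_of_mul_pos_left h3 (norm_nonneg _)
        have h5 : ‖q (ω * e u) - q (e u)‖ * ‖p (e u)‖ ≤ (‖q (e u)‖ / 100) * ‖p (e u)‖ := by linarith
        exact le_of_mul_le_mul_right h5 h4)
      simp only [he0] at h7
      refine ⟨other_ratio (q v₀) (q (ω * v₀)) (p v₀) (p (ω * v₀)) (by rwa [mul_comm]) h7 ?_,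
        h7.trans (by linarith)⟩
      rw [mul_comm (q (ω * v₀)), mul_comm (q v₀)]
      exact h6'

end Pool.Agent.L1Q
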