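import Mathlib
import Pool.Agent.L1Q.Bounds
import Pool.Agent.L1Q.Zone
import Pool.Agent.L1Q.Circle
import Pool.Agent.L1Q.Count
import Pool.Agent.L1Q.Rotate
import Pool.Agent.L1Q.Reduction
set_option autoImplicit false
namespace Pool.Agent.L1Q
open Complex Polynomial

/-- the ratio bounds `κ_j` -/
noncomputable def kp (j : ℕ) : ℝ := (1 / 10 ^ 6) * (2 - (1 / 2) ^ j)

theorem kp_pos (j : ℕ) : 0 < kp j := by
  unfold kp
  have : (1 / 2 : ℝ) ^ j ≤ 1 := pow_le_one₀ (by norm_num) (by norm_num)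
  have : (0 : ℝ) < 2 - (1 / 2) ^ j := by linarith
  positivity

theorem kp_ge (j : ℕ) : 1 / 10 ^ 6 ≤ kp j := by
  unfold kp
  have : (1 / 2 : ℝ) ^ j ≤ 1 := pow_le_one₀ (by norm_num) (by norm_num)
  nlinarith

theorem kp_le (j : ℕ) : kp j ≤ 2 / 10 ^ 6 := by
  unfold kp
  have : (0 : ℝ) < (1 / 2 : ℝ) ^ j := by positivity
  nlinarith

/-- `κ_{j+1}/κ_j` is large when raised to the power `ν_j = 48·2^j`. -/
theorem kp_step (j : ℕ) : kp j ^ (48 * 2 ^ j) * 4096 ≤ kp (j + 1) ^ (48 * 2 ^ j) := by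
  have h1 : kp j * (1 + (1 / 2) ^ (j + 2)) ≤ kp (j + 1) := by
    unfold kp
    have e1 : (1 / 2 : ℝ) ^ (j + 2) = (1 / 2) ^ j / 4 := by rw [pow_add]; norm_num; ring
    have e2 : (1 / 2 : ℝ) ^ (j + 1) = (1 / 2) ^ j / 2 := by rw [pow_succ]; ring
    rw [e1, e2]
    have h0 : (0 : ℝ) < (1 / 2 : ℝ) ^ j := by positivity
    have : (1 / 2 : ℝ) ^ j ≤ 1 := pow_le_one₀ (by norm_num) (by norm_num)
    nlinarith
  have h2 : (2 : ℝ) ≤ (1 + (1 / 2) ^ (j + 2)) ^ (4 * 2 ^ j) := by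
    have h3 := one_add_mul_le_pow (a := (1 / 2 : ℝ) ^ (j + 2)) (by
      have : (0 : ℝ) < (1 / 2 : ℝ) ^ (j + 2) := by positivity
      linarith) (4 * 2 ^ j)
    have h4 : ((4 * 2 ^ j : ℕ) : ℝ) * (1 / 2) ^ (j + 2) = 1 := by
      push_cast
      rw [pow_add, one_div, inv_pow, inv_pow]
      field_simp
      norm_num
    rw [h4] at h3
    linarith
  have h5 : (4096 : ℝ) ≤ (1 + (1 / 2) ^ (j + 2)) ^ (48 * 2 ^ j) := by
    have : 48 * 2 ^ j = (4 * 2 ^ j) * 12 := by ring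
    rw [this, pow_mul]
    calc (4096 : ℝ) = 2 ^ 12 := by norm_num
      _ ≤ _ := by gcongr
  calc kp j ^ (48 * 2 ^ j) * 4096 ≤ kp j ^ (48 * 2 ^ j) * (1 + (1 / 2) ^ (j + 2)) ^ (48 * 2 ^ j) := by
        have := kp_pos j
        gcongr
    _ = (kp j * (1 + (1 / 2) ^ (j + 2))) ^ (48 * 2 ^ j) := by rw [mul_pow]
    _ ≤ _ := by
        have := kp_pos j
        gcongr

/-- maximum principle on a disc -/
theorem disc_bound (f : ℂ → ℂ) (hf : Differentiable ℂ f) (ρ C : ℝ) (hρ : 0 < ρ)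
    (h : ∀ v : ℂ, ‖v‖ = ρ → ‖f v‖ ≤ C) : ∀ v : ℂ, ‖v‖ ≤ ρ → ‖f v‖ ≤ C := by
  intro v hv
  refine Complex.norm_le_of_forall_mem_frontier_norm_le (U := Metric.ball (0:ℂ) ρ)
    Metric.isBounded_ball hf.diffContOnCl ?_ ?_
  · intro z hz
    rw [frontier_ball _ hρ.ne'] at hz
    exact h z (by simpa using hz)
  · rw [closure_ball _ hρ.ne']
    simpa using hv

structure Setup (y N : ℕ → ℕ) (K k j₀ : ℕ) (M δ : ℝ) (ω : ℂ) (p q : ℂ[X]) : Prop extends Data y N K where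
  hj₀ : 1 ≤ j₀
  hjk : j₀ ≤ k
  hkK : k < K
  hM1 : 1 ≤ M
  hMj : M ^ 2 ≤ j₀ + 1
  hδ : δ ≤ th k / 1000
  hω : ω = exp (2 * Real.pi * I / N k)
  hp0 : p.eval 0 = 0
  hq0 : q.eval 0 = 0
  hbd : ∀ v : ℂ, ‖v‖ ≤ 1 → ‖p.eval v‖ ≤ M ∧ ‖q.eval v‖ ≤ M
  hrot : ∀ v : ℂ, ‖v‖ ≤ 1 → ∀ l : ℕ,
    ‖p.eval (ω ^ l * v) - p.eval v‖ ≤ (1 / 100) ^ j₀ * (35 / 100) / (10 ^ 6 * M) ∧
    ‖q.eval (ω ^ l * v) - q.eval v‖ ≤ (1 / 100) ^ j₀ * (35 / 100) / (10 ^ 6 * M)
  hF : ∀ v : ℂ, ‖v‖ ≤ 1 → ‖p.eval v * q.eval v - Ft N K 0 v‖ ≤ δ + M ^ 2 * ‖v‖ ^ (N 0)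

variable {y N : ℕ → ℕ} {K k j₀ : ℕ} {M δ : ℝ} {ω : ℂ} {p q : ℂ[X]}

theorem Setup.norm_ω (h : Setup y N K k j₀ M δ ω p q) : ‖ω‖ = 1 := by
  rw [h.hω]
  have : (2 * Real.pi * I / N k : ℂ) = ((2 * Real.pi / N k : ℝ) : ℂ) * I := by
    push_cast; ring
  rw [this, Complex.norm_exp_ofReal_mul_I]

theorem Setup.err (h : Setup y N K k j₀ M δ ω p q) {j : ℕ} (h1 : j₀ ≤ j) (h2 : j ≤ k) {v : ℂ}
    (hv : ‖v‖ ≤ rr N y j) : ‖p.eval v * q.eval v - Ft N K 0 v‖ ≤ th j / 500 := by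
  have hj : 1 ≤ j := h.hj₀.trans h1
  obtain ⟨i, rfl⟩ : ∃ i, j = i + 1 := ⟨j - 1, by omega⟩
  have hkK := h.hkK
  have hz := pow_zero_le h.toData (j := i) (by omega) hv
  have hv1 : ‖v‖ ≤ 1 := hv.trans (rr_le_one _)
  have hF := h.hF v hv1
  have hyθ := h.hyθ (i + 1)
  have h3 : δ ≤ th (i + 1) / 1000 := h.hδ.trans (by have := th_anti h2; linarith)
  have h4 : M ^ 2 ≤ ((i + 1 : ℕ) : ℝ) + 1 := by
    refine h.hMj.trans ?_
    have : (j₀ : ℝ) ≤ ((i + 1 : ℕ) : ℝ) := by exact_mod_cast h1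
    linarith
  have h5 : M ^ 2 * ‖v‖ ^ (N 0) ≤ th (i + 1) / 1000 := by
    have h6 : (0 : ℝ) < ((i + 1 : ℕ) : ℝ) + 1 := by positivity
    calc M ^ 2 * ‖v‖ ^ (N 0) ≤ (((i + 1 : ℕ) : ℝ) + 1) * (th (i + 1) / (1000 * (((i + 1 : ℕ) : ℝ) + 1))) := by
          gcongr
          exact hz.trans hyθ
      _ = _ := by field_simp
  linarith

theorem Setup.fF (h : Setup y N K k j₀ M δ ω p q) {j : ℕ} (h1 : j₀ ≤ j) (h2 : j ≤ k) {v : ℂ}
    (hv : ‖v‖ ≤ rr N y j) : ‖p.eval v * q.eval v - Ft N K j v‖ ≤ th j / 100 := by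
  have he := h.err h1 h2 hv
  have hj : 1 ≤ j := h.hj₀.trans h1
  obtain ⟨i, rfl⟩ : ∃ i, j = i + 1 := ⟨j - 1, by omega⟩
  have hkK := h.hkK
  have hh := head_le h.toData (j := i) (by omega) hv
  have hyθ := h.hyθ (i + 1)
  have h3 : (100 / 99 : ℝ) / y (i + 1) ≤ th (i + 1) / 500 := by
    have h4 : th (i + 1) / (1000 * (((i + 1 : ℕ) : ℝ) + 1)) ≤ th (i + 1) / 1000 := by
      have := th_pos (i + 1)
      apply div_le_div_of_nonneg_left this.le (by norm_num)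
      have : (0 : ℝ) ≤ ((i + 1 : ℕ) : ℝ) := by positivity
      linarith
    have h5 : (100 / 99 : ℝ) / y (i + 1) = (100 / 99) * (1 / y (i + 1)) := by ring
    have := th_pos (i + 1)
    rw [h5]
    nlinarith
  have h6 : p.eval v * q.eval v - Ft N K (i + 1) v
      = (p.eval v * q.eval v - Ft N K 0 v) + (Ft N K 0 v - Ft N K (i + 1) v) := by ring
  rw [h6]
  refine (norm_add_le _ _).trans ?_
  have := th_pos (i + 1)
  linarith

theorem Setup.f_le (h : Setup y N K k j₀ M δ ω p q) {j : ℕ} (h1 : j₀ ≤ j) (h2 : j ≤ k) {v : ℂ}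
    (hv : ‖v‖ ≤ rr N y j) : ‖p.eval v * q.eval v‖ ≤ (1 / 100) ^ j * (103 / 100) := by
  have he := h.fF h1 h2 hv
  have hv1 : ‖v‖ ≤ 1 := hv.trans (rr_le_one _)
  have h3 := Ft_le (N := N) K j hv1
  have h4 := th_le j
  have h5 : ‖p.eval v * q.eval v‖ ≤ ‖p.eval v * q.eval v - Ft N K j v‖ + ‖Ft N K j v‖ := by
    have := norm_add_le (p.eval v * q.eval v - Ft N K j v) (Ft N K j v)
    rwa [sub_add_cancel] at this
  have h6 : (0 : ℝ) < (1 / 100) ^ j := by positivity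
  nlinarith

theorem Setup.f_ge (h : Setup y N K k j₀ M δ ω p q) {j : ℕ} (h1 : j₀ ≤ j) (h2 : j ≤ k) {v : ℂ}
    (hv : ‖v‖ ≤ rr N y j) (hv2 : RR N j ≤ ‖v‖) :
    (1 / 100) ^ j * (35 / 100) ≤ ‖p.eval v * q.eval v‖ := by
  have he := h.fF h1 h2 hv
  have hv1 : ‖v‖ ≤ 1 := hv.trans (rr_le_one _)
  have hkK := h.hkK
  have h3 := Ft_ge (N := N) (K := K) (j := j) (by omega) hv1 (by
    rw [← RR_pow h.toData (j := j) (by omega)]
    have := RR_pos (N := N) j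
    gcongr)
  have h4 := th_le j
  have h5 : ‖Ft N K j v‖ ≤ ‖p.eval v * q.eval v - Ft N K j v‖ + ‖p.eval v * q.eval v‖ := by
    have := norm_sub_le (p.eval v * q.eval v) (p.eval v * q.eval v - Ft N K j v)
    rw [sub_sub_cancel] at this
    linarith
  have h6 : (0 : ℝ) < (1 / 100) ^ j := by positivity
  nlinarith

theorem Setup.rot (h : Setup y N K k j₀ M δ ω p q) {j : ℕ} (h1 : j₀ ≤ j) (h2 : j ≤ k) {v : ℂ}
    (hv : ‖v‖ ≤ rr N y j) :
    ‖p.eval (ω * v) * q.eval (ω * v) - p.eval v * q.eval v‖ ≤ th j / 100 := by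
  have hωv : ‖ω * v‖ = ‖v‖ := by rw [norm_mul, h.norm_ω, one_mul]
  have he1 := h.err h1 h2 hv
  have he2 := h.err h1 h2 (v := ω * v) (by rwa [hωv])
  have hv1 : ‖v‖ ≤ 1 := hv.trans (rr_le_one _)
  have he3 := rot_le h.toData h.hkK hv1
  rw [← h.hω] at he3
  have h3 : (1 : ℝ) / y (k + 1) ≤ th j / 1000 := by
    have h4 := h.hyθ (k + 1)
    have h5 : th (k + 1) / (1000 * (((k + 1 : ℕ) : ℝ) + 1)) ≤ th (k + 1) / 1000 := by
      have := th_pos (k + 1)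
      apply div_le_div_of_nonneg_left this.le (by norm_num)
      have : (0 : ℝ) ≤ ((k + 1 : ℕ) : ℝ) := by positivity
      linarith
    have h6 : th (k + 1) ≤ th j := th_anti (by omega)
    linarith
  have h7 : p.eval (ω * v) * q.eval (ω * v) - p.eval v * q.eval v
      = (p.eval (ω * v) * q.eval (ω * v) - Ft N K 0 (ω * v)) - (p.eval v * q.eval v - Ft N K 0 v)
        + (Ft N K 0 (ω * v) - Ft N K 0 v) := by ring
  rw [h7]
  refine (norm_add_le _ _).trans ?_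
  have h8 := norm_sub_le (p.eval (ω * v) * q.eval (ω * v) - Ft N K 0 (ω * v)) (p.eval v * q.eval v - Ft N K 0 v)
  have := th_pos j
  linarith

/-- the circle statement -/
def Circ (N y : ℕ → ℕ) (ω : ℂ) (p : ℂ[X]) (j : ℕ) : Prop :=
  ∀ v : ℂ, ‖v‖ = rr N y j → ‖p.eval (ω * v) - p.eval v‖ ≤ kp j * ‖p.eval v‖

/-- the zone statement -/
def ZoneP (N y : ℕ → ℕ) (ω : ℂ) (p q : ℂ[X]) (j : ℕ) : Prop :=
  ∀ v : ℂ, RR N (j + 1) ≤ ‖v‖ → ‖v‖ ≤ rr N y j → th j ≤ ‖p.eval v * q.eval v‖ →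
    ‖p.eval (ω * v) - p.eval v‖ ≤ ‖p.eval v‖ / 4

theorem Setup.symm (h : Setup y N K k j₀ M δ ω p q) : Setup y N K k j₀ M δ ω q p :=
  { toData := h.toData
    hj₀ := h.hj₀
    hjk := h.hjk
    hkK := h.hkK
    hM1 := h.hM1
    hMj := h.hMj
    hδ := h.hδ
    hω := h.hω
    hp0 := h.hq0
    hq0 := h.hp0
    hbd := fun v hv => (h.hbd v hv).symm
    hrot := fun v hv l => (h.hrot v hv l).symm
    hF := fun v hv => by rw [mul_comm]; exact h.hF v hv }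

theorem Setup.W_bound (h : Setup y N K k j₀ M δ ω p q) {j : ℕ} (h1 : j₀ ≤ j) (h2 : j ≤ k)
    (hC : Circ N y ω p j) : ∀ v : ℂ, ‖v‖ ≤ rr N y j →
      ‖(p.eval (ω * v) - p.eval v) * q.eval v‖ ≤ (3 / 10 ^ 6) * (1 / 100) ^ j := by
  have hd : Differentiable ℂ fun v : ℂ => (p.eval (ω * v) - p.eval v) * q.eval v := by
    have e1 : Differentiable ℂ fun v : ℂ => p.eval (ω * v) :=
      p.differentiable.comp (differentiable_id.const_mul ω)
    exact (e1.sub p.differentiable).mul q.differentiable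
  refine disc_bound _ hd _ _ (rr_pos j) ?_
  intro v hv
  rw [norm_mul]
  have h3 := hC v hv
  have h4 := h.f_le h1 h2 hv.le
  rw [norm_mul] at h4
  have h5 := kp_le j
  have h6 := kp_pos j
  calc ‖p.eval (ω * v) - p.eval v‖ * ‖q.eval v‖ ≤ kp j * ‖p.eval v‖ * ‖q.eval v‖ := by gcongr
    _ = kp j * (‖p.eval v‖ * ‖q.eval v‖) := by ring
    _ ≤ (2 / 10 ^ 6) * ((1 / 100) ^ j * (103 / 100)) := by gcongr
    _ ≤ _ := by
        have : (0 : ℝ) < (1 / 100) ^ j := by positivity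
        nlinarith

theorem Setup.zone (h : Setup y N K k j₀ M δ ω p q) {j : ℕ} (h1 : j₀ ≤ j) (h2 : j < k)
    (hp : Circ N y ω p j) (hq : Circ N y ω q j) : ZoneP N y ω p q j ∧ ZoneP N y ω q p j := by
  have hkK := h.hkK
  have hNj : 1 ≤ N j := h.pos (i := j) (by omega)
  have hcast : (((1 / 100 : ℝ) ^ j : ℝ) : ℂ) = ((1 / 100 : ℝ) : ℂ) ^ j := by push_cast; rfl
  have hpow0 : (0 : ℝ) < (1 / 100) ^ j := by positivity
  have key := zone_ratio (fun v => p.eval v) (fun v => q.eval v) (Ft N K (j + 1)) p.differentiable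
    q.differentiable ω (N j) hNj ((1 / 100) ^ j) (rr N y j) (RR N (j + 1)) (3 / 10 ^ 6) (th j)
    hpow0 (rr_pos j) (rr_le_one j)
    ((by norm_num : (1 / 2 : ℝ) ≤ 9 / 10).trans (rr_pow_ge h.toData (by omega)))
    le_rfl (th_pos j)
    (by
      intro v hv
      have h3 := h.fF h1 h2.le hv
      rw [Ft_succ (by omega : j ≤ K)] at h3
      rw [hcast, sub_sub]
      refine h3.trans ?_
      have := th_le j
      nlinarith)
    (by
      intro v hv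
      refine (Ft_le K (j + 1) hv).trans ?_
      rw [pow_succ]
      nlinarith)
    (by
      intro v hv hv1
      refine le_trans ?_ (Ft_ge (N := N) (K := K) (j := j + 1) (by omega) hv1 (by
        rw [← RR_pow h.toData (j := j + 1) (by omega)]
        have := RR_pos (N := N) (j + 1)
        gcongr))
      rw [pow_succ (1 / 100 : ℝ) j]
      nlinarith)
    (by
      intro v u hv hu _
      exact tail_local h.toData (by omega) hv hu)
    (h.W_bound h1 h2.le hp)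
    (h.symm.W_bound h1 h2.le hq)
    (by
      intro v _ hv
      exact h.rot h1 h2.le hv)
  constructor
  · intro v a b c
    exact (key v a b c).1
  · intro v a b c
    exact (key v a b (by rw [mul_comm]; exact c)).2

/-- from the circle `j` to the circle `j+1` -/
theorem Setup.next (h : Setup y N K k j₀ M δ ω p q) {j : ℕ} (h1 : j₀ ≤ j) (h2 : j < k)
    (hp : Circ N y ω p j) (hz : ZoneP N y ω p q j) : Circ N y ω p (j + 1) := by
  have hkK := h.hkK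
  have hpow0 : (0 : ℝ) < (1 / 100) ^ j := by positivity
  have hpow1 : (0 : ℝ) < (1 / 100) ^ (j + 1) := by positivity
  have hRρ' : RR N (j + 1) < rr N y (j + 1) := RR_lt_rr h.toData (by omega)
  have hρ'ρ : rr N y (j + 1) < rr N y j := rr_lt_rr h.toData (by omega)
  have hth := th_le j
  -- exponents
  obtain ⟨μ, hμ⟩ : ∃ μ, μ + 1 = 48 * 2 ^ j := ⟨48 * 2 ^ j - 1, by
    have := Nat.one_le_two_pow (n := j); omega⟩
  set b : ℕ := 2 * (μ + 1) * N (j + 1) with hb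
  have hμ48 : 48 ≤ μ + 1 := by
    rw [hμ]; have := Nat.one_le_two_pow (n := j); omega
  -- rr^b
  have hNj1 := h.posR (i := j + 1) (by omega)
  have hρ'b : 1 / 2 ≤ rr N y (j + 1) ^ b := by
    have e1 : rr N y (j + 1) ^ b = Real.exp (-(2 * (μ + 1) / y (j + 1))) := by
      rw [hb, mul_comm, pow_mul, rr_pow h.toData (by omega), ← Real.exp_nat_mul]
      congr 1
      push_cast
      ring
    rw [e1]
    have e2 : (2 * ((μ : ℝ) + 1) / y (j + 1)) ≤ 1 / 2 := by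
      have e3 := h.hyθ (j + 1)
      have e4 : ((μ : ℝ) + 1) ≤ 48 * 2 ^ j := by
        have : ((μ + 1 : ℕ) : ℝ) = ((48 * 2 ^ j : ℕ) : ℝ) := by rw [hμ]
        push_cast at this
        linarith
      have e5 : th (j + 1) ≤ (1 / 100) ^ (j + 1) * (1 / 10 ^ 6) := th_le _
      have e6 : th (j + 1) / (1000 * (((j + 1 : ℕ) : ℝ) + 1)) ≤ th (j + 1) / 1000 := by
        have := th_pos (j + 1)
        apply div_le_div_of_nonneg_left this.le (by norm_num)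
        have : (0 : ℝ) ≤ ((j + 1 : ℕ) : ℝ) := by positivity
        linarith
      have e7 : (1 : ℝ) / y (j + 1) ≤ (1 / 100) ^ j / 10 ^ 6 := by
        refine (e3.trans e6).trans ?_
        rw [pow_succ] at e5
        nlinarith
      have e8 : (2 : ℝ) ^ j * (1 / 100) ^ j ≤ 1 := by
        rw [← mul_pow]
        exact pow_le_one₀ (by norm_num) (by norm_num)
      have e9 := h.ypos (j + 1)
      calc 2 * ((μ : ℝ) + 1) / y (j + 1) = 2 * ((μ : ℝ) + 1) * (1 / y (j + 1)) := by ring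
        _ ≤ 2 * (48 * 2 ^ j) * ((1 / 100) ^ j / 10 ^ 6) := by gcongr
        _ = (96 / 10 ^ 6) * ((2 : ℝ) ^ j * (1 / 100) ^ j) := by ring
        _ ≤ (96 / 10 ^ 6) * 1 := by gcongr
        _ ≤ 1 / 2 := by norm_num
    have e3 := Real.add_one_le_exp (-(2 * ((μ : ℝ) + 1) / y (j + 1)))
    linarith
  have hρb : rr N y j ^ b ≤ 1 := pow_le_one₀ (rr_pos j).le (rr_le_one j)
  have hρb0 : 0 ≤ rr N y j ^ b := pow_nonneg (rr_pos j).le _
  have hRb : RR N (j + 1) ^ b ≤ (1 / 7) ^ (μ + 1) := by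
    have e1 : RR N (j + 1) ^ b = (Real.exp (-1) ^ 2) ^ (μ + 1) := by
      rw [hb, mul_comm, pow_mul, RR_pow h.toData (by omega), ← pow_mul]
    rw [e1]
    have e2 : Real.exp (-1) ^ 2 ≤ 1 / 7 := by
      have := Real.exp_neg_one_lt_d9
      have h0 := Real.exp_pos (-1)
      nlinarith
    gcongr
  have hkp1 := kp_pos (j + 1)
  have hkpg := kp_ge (j + 1)
  have hstep := kp_step j
  rw [← hμ] at hstep
  have hres := circle_step (fun v => p.eval v) (fun v => q.eval v) p.differentiable q.differentiable ω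
    μ b (RR N (j + 1)) (rr N y (j + 1)) (rr N y j) (RR_pos _) hRρ' hρ'ρ (th j) (kp j) (kp (j + 1))
    ((1 / 100) ^ j * (103 / 100)) ((1 / 100) ^ (j + 1) * (103 / 100)) ((1 / 100) ^ (j + 1) * (35 / 100))
    ((1 / 100) ^ (j + 1) * (35 / 100)) (th_pos j)
    (by rw [pow_succ]; nlinarith) (kp_pos j) (kp_pos _) (by positivity) (by positivity)
    (by
      intro v hv1 hv2 hv3
      have h3 := hz v hv1 hv2 hv3.ge
      have h3' : ‖p.eval (ω * v) - p.eval v‖ ≤ ‖p.eval v‖ / 4 := h3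
      have hv3' : ‖p.eval v‖ * ‖q.eval v‖ = th j := by rw [← norm_mul]; exact hv3
      change ‖(p.eval (ω * v) - p.eval v) * q.eval v‖ ≤ th j / 4
      rw [norm_mul]
      calc ‖p.eval (ω * v) - p.eval v‖ * ‖q.eval v‖ ≤ ‖p.eval v‖ / 4 * ‖q.eval v‖ := by gcongr
        _ = ‖p.eval v‖ * ‖q.eval v‖ / 4 := by ring
        _ = th j / 4 := by rw [hv3'])
    (by
      intro v hv
      refine ⟨?_, h.f_le h1 h2.le hv.le⟩
      rw [norm_mul, norm_mul, ← mul_assoc]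
      have := hp v hv
      gcongr)
    (by
      intro v hv
      exact ⟨h.f_ge (by omega) (by omega) hv.le (by rw [hv]; exact hRρ'.le),
        h.f_le (by omega) (by omega) hv.le⟩)
    (by
      intro v hv
      exact h.f_ge (by omega) (by omega) (by rw [hv]; exact hRρ'.le) hv.ge)
    (by
      -- N1
      have e1 : th j = (1 / 100) ^ (j + 2) * (1 / 10 ^ 6) ^ (μ + 1) := by rw [hμ]; rfl
      have e2 : (1 / 10 ^ 6 : ℝ) ^ (μ + 1) ≤ kp (j + 1) ^ (μ + 1) := by gcongr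
      have e3 : (1 / 4 : ℝ) ^ (μ + 1) ≤ 1 := pow_le_one₀ (by norm_num) (by norm_num)
      have e4 : (0 : ℝ) < (1 / 10 ^ 6 : ℝ) ^ (μ + 1) := by positivity
      have e5 : (0 : ℝ) < kp (j + 1) ^ (μ + 1) := by positivity
      calc (1 / 4 : ℝ) ^ (μ + 1) * th j * rr N y j ^ b ≤ 1 * th j * 1 := by
            have := th_pos j
            gcongr
        _ = (1 / 10 ^ 6) ^ (μ + 1) * ((1 / 100) ^ (j + 1) * (1 / 100)) := by
            rw [e1, pow_succ (1 / 100 : ℝ) (j + 1)]; ring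
        _ ≤ kp (j + 1) ^ (μ + 1) * ((1 / 100) ^ (j + 1) * (35 / 100) * (1 / 2)) := by
            gcongr ?_ * ?_
            nlinarith
        _ = kp (j + 1) ^ (μ + 1) * ((1 / 100) ^ (j + 1) * (35 / 100)) * (1 / 2) := by ring
        _ ≤ _ := by gcongr)
    (by
      -- N2
      have e5 : (0 : ℝ) < kp (j + 1) ^ (μ + 1) := by positivity
      have e6 : (0 : ℝ) < kp j ^ (μ + 1) := pow_pos (kp_pos j) _
      calc kp j ^ (μ + 1) * ((1 / 100) ^ j * (103 / 100)) * rr N y j ^ b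
          ≤ kp j ^ (μ + 1) * ((1 / 100) ^ j * (103 / 100)) * 1 := by gcongr
        _ ≤ (kp j ^ (μ + 1) * 4096) * ((1 / 100) ^ (j + 1) * (35 / 100)) * (1 / 2) := by
            rw [pow_succ (1 / 100 : ℝ) j]
            have : (1 / 100 : ℝ) ^ j * (103 / 100) * 1
                ≤ 4096 * ((1 / 100 : ℝ) ^ j * (1 / 100) * (35 / 100)) * (1 / 2) := by nlinarith
            nlinarith
        _ ≤ kp (j + 1) ^ (μ + 1) * ((1 / 100) ^ (j + 1) * (35 / 100)) * (1 / 2) := by gcongr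
        _ ≤ _ := by gcongr)
    (by
      -- N3
      have e7 : (0 : ℝ) < ((1 / 100) ^ (j + 1)) ^ (μ + 1) := by positivity
      have e8 : ((1 / 100 : ℝ) ^ (j + 1) * (35 / 100)) ^ μ * ((1 / 100) ^ (j + 1) * (35 / 100))
          = ((1 / 100) ^ (j + 1)) ^ (μ + 1) * (35 / 100) ^ (μ + 1) := by
        rw [← pow_succ, mul_pow]
      have e9 : ((103 / 100 : ℝ)) ^ (μ + 1) * (1 / 7) ^ (μ + 1) < (35 / 100) ^ (μ + 1) * (1 / 2) := by
        have e10 : ((103 / 100 : ℝ)) ^ (μ + 1) * (1 / 7) ^ (μ + 1)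
            = (35 / 100) ^ (μ + 1) * (103 / 245) ^ (μ + 1) := by
          rw [← mul_pow, ← mul_pow]; norm_num
        rw [e10]
        have e11 : (103 / 245 : ℝ) ^ (μ + 1) ≤ (103 / 245) ^ 1 :=
          pow_le_pow_of_le_one (by norm_num) (by norm_num) (by omega)
        have e12 : (0 : ℝ) < (35 / 100) ^ (μ + 1) := by positivity
        nlinarith
      calc ((1 / 100) ^ (j + 1) * (103 / 100)) ^ (μ + 1) * RR N (j + 1) ^ b
          ≤ ((1 / 100) ^ (j + 1) * (103 / 100)) ^ (μ + 1) * (1 / 7) ^ (μ + 1) := by gcongr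
        _ = ((1 / 100) ^ (j + 1)) ^ (μ + 1) * ((103 / 100) ^ (μ + 1) * (1 / 7) ^ (μ + 1)) := by
            rw [mul_pow]; ring
        _ < ((1 / 100) ^ (j + 1)) ^ (μ + 1) * ((35 / 100) ^ (μ + 1) * (1 / 2)) := by gcongr
        _ = ((1 / 100 : ℝ) ^ (j + 1) * (35 / 100)) ^ μ * ((1 / 100) ^ (j + 1) * (35 / 100)) * (1 / 2) := by
            rw [e8]; ring
        _ ≤ _ := by gcongr)
  intro v hv
  have h3 := hres v hv
  have h3' : ‖(p.eval (ω * v) - p.eval v) * q.eval v‖ ≤ kp (j + 1) * ‖p.eval v * q.eval v‖ := h3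
  have h4 := h.f_ge (j := j + 1) (by omega) (by omega) hv.le (by rw [hv]; exact hRρ'.le)
  rw [norm_mul] at h3' h4
  rw [norm_mul (p.eval v)] at h3'
  have h5 : 0 < ‖p.eval v‖ * ‖q.eval v‖ := lt_of_lt_of_le (by positivity) h4
  have h6 : 0 < ‖q.eval v‖ := pos_of_mul_pos_right h5 (norm_nonneg _)
  have h7 : ‖p.eval (ω * v) - p.eval v‖ * ‖q.eval v‖ ≤ (kp (j + 1) * ‖p.eval v‖) * ‖q.eval v‖ := by
    rw [mul_assoc]; exact h3'
  exact le_of_mul_le_mul_right h7 h6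

end Pool.Agent.L1Q
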