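import Mathlib
import Pool.Agent.L1Q.Step
set_option autoImplicit false
namespace Pool.Agent.L1Q
open Complex Polynomial

variable {y N : ℕ → ℕ} {K k j₀ : ℕ} {M δ : ℝ} {ω : ℂ} {p q : ℂ[X]}

theorem Setup.base (h : Setup y N K k j₀ M δ ω p q) {v : ℂ} (hv : ‖v‖ = rr N y j₀) (l : ℕ) :
    ‖p.eval (ω ^ l * v) - p.eval v‖ ≤ (1 / 10 ^ 6) * ‖p.eval v‖ := by
  have hkK := h.hkK
  have hjk := h.hjk
  have hv1 : ‖v‖ ≤ 1 := hv.le.trans (rr_le_one _)
  have h1 := (h.hrot v hv1 l).1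
  refine h1.trans ?_
  have h2 := h.f_ge le_rfl hjk hv.le (by rw [hv]; exact (RR_lt_rr h.toData (by omega)).le)
  have h3 := (h.hbd v hv1).2
  have hM : 0 < M := by linarith [h.hM1]
  rw [norm_mul] at h2
  have h4 : (1 / 100) ^ j₀ * (35 / 100) ≤ ‖p.eval v‖ * M := h2.trans (by gcongr)
  rw [div_le_iff₀ (by positivity)]
  calc _ ≤ ‖p.eval v‖ * M := h4
    _ = _ := by ring

theorem Setup.circ (h : Setup y N K k j₀ M δ ω p q) {j : ℕ} (h1 : j₀ ≤ j) :
    j ≤ k → Circ N y ω p j ∧ Circ N y ω q j := by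
  induction h1 with
  | refl =>
    intro _
    constructor
    · intro v hv
      have := h.base hv 1
      rw [pow_one] at this
      refine this.trans ?_
      have := kp_ge j₀
      gcongr
    · intro v hv
      have := h.symm.base hv 1
      rw [pow_one] at this
      refine this.trans ?_
      have := kp_ge j₀
      gcongr
  | @step i hi ih =>
    intro hik
    obtain ⟨hp, hq⟩ := ih (by omega)
    obtain ⟨hz1, hz2⟩ := h.zone hi (by omega) hp hq
    exact ⟨h.next hi (by omega) hp hz1, h.symm.next hi (by omega) hq hz2⟩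

theorem Setup.ω_pow (h : Setup y N K k j₀ M δ ω p q) : ω ^ (N k) = 1 := by
  have hkK := h.hkK
  have hNk := h.posR (i := k) (by omega)
  have hNkC : (N k : ℂ) ≠ 0 := by exact_mod_cast hNk.ne'
  rw [h.hω, ← Complex.exp_nat_mul]
  have : (N k : ℂ) * (2 * Real.pi * I / N k) = 2 * Real.pi * I := by field_simp
  rw [this, Complex.exp_two_pi_mul_I]

theorem Setup.ray_ge (h : Setup y N K k j₀ M δ ω p q) {j : ℕ} (h1 : j₀ ≤ j) (h2 : j < k) {x : ℝ}
    (hx1 : rr N y (j + 1) ≤ x) (hx2 : x ≤ rr N y j) (l : ℕ) :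
    th j ≤ ‖p.eval (x * ω ^ l) * q.eval (x * ω ^ l)‖ := by
  have hkK := h.hkK
  have hx0 : 0 < x := (rr_pos _).trans_le hx1
  have hxn : ‖(x : ℂ) * ω ^ l‖ = x := by
    rw [norm_mul, norm_pow, h.norm_ω, one_pow, mul_one, Complex.norm_real, Real.norm_of_nonneg hx0.le]
  have hx1' : x ≤ 1 := hx2.trans (rr_le_one _)
  have he := h.err h1 h2.le (v := x * ω ^ l) (by rw [hxn]; exact hx2)
  set w : ℂ := x * ω ^ l with hw
  have hsplit : Ft N K 0 w = ∑ i ∈ Finset.Ico 0 (k + 1), ((1 / 100 : ℝ) : ℂ) ^ i * w ^ (N i)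
      + Ft N K (k + 1) w := by
    unfold Ft
    rw [Finset.sum_Ico_consecutive _ (Nat.zero_le (k + 1)) (by omega : k + 1 ≤ K + 1)]
  have hlow : ∑ i ∈ Finset.Ico 0 (k + 1), ((1 / 100 : ℝ) : ℂ) ^ i * w ^ (N i)
      = ((∑ i ∈ Finset.Ico 0 (k + 1), (1 / 100 : ℝ) ^ i * x ^ (N i) : ℝ) : ℂ) := by
    push_cast
    apply Finset.sum_congr rfl
    intro i hi
    rw [Finset.mem_Ico] at hi
    obtain ⟨d, hd⟩ := h.dvd (i := i) (j := k) (by omega) (by omega)
    have : w ^ (N i) = (x : ℂ) ^ (N i) := by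
      rw [hw, mul_pow, ← pow_mul, hd, mul_comm l, mul_assoc, pow_mul ω, h.ω_pow, one_pow, mul_one]
    rw [this]
  have hA : (1 / 100 : ℝ) ^ (j + 1) * x ^ (N (j + 1))
      ≤ ∑ i ∈ Finset.Ico 0 (k + 1), (1 / 100 : ℝ) ^ i * x ^ (N i) :=
    Finset.single_le_sum (f := fun i => (1 / 100 : ℝ) ^ i * x ^ (N i)) (fun i _ => by positivity)
      (by rw [Finset.mem_Ico]; omega)
  have hxN : 9 / 10 ≤ x ^ (N (j + 1)) := by
    refine (rr_pow_ge h.toData (j := j + 1) (by omega)).trans ?_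
    have := rr_pos (N := N) (y := y) (j + 1)
    gcongr
  have hB := Ft_le (N := N) K (k + 1) (v := w) (by rw [hxn]; exact hx1')
  have hB2 : (1 / 100 : ℝ) ^ (k + 1) ≤ (1 / 100) ^ (j + 1) * (1 / 100) := by
    rw [← pow_succ]
    exact pow_le_pow_of_le_one (by norm_num) (by norm_num) (by omega)
  have hFt : (1 / 100 : ℝ) ^ (j + 1) * (1 / 2) ≤ ‖Ft N K 0 w‖ := by
    rw [hsplit, hlow]
    have h3 := norm_sub_le_norm_add ((∑ i ∈ Finset.Ico 0 (k + 1), (1 / 100 : ℝ) ^ i * x ^ (N i) : ℝ) : ℂ)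
      (Ft N K (k + 1) w)
    rw [Complex.norm_real, Real.norm_of_nonneg (by positivity)] at h3
    have hp : (0 : ℝ) < (1 / 100) ^ (j + 1) := by positivity
    nlinarith
  have hth := th_le j
  have h5 : ‖Ft N K 0 w‖ ≤ ‖p.eval w * q.eval w - Ft N K 0 w‖ + ‖p.eval w * q.eval w‖ := by
    have := norm_sub_le (p.eval w * q.eval w) (p.eval w * q.eval w - Ft N K 0 w)
    rw [sub_sub_cancel] at this
    linarith
  have hp : (0 : ℝ) < (1 / 100) ^ j := by positivity
  rw [pow_succ (1 / 100 : ℝ) j] at hFt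
  nlinarith

theorem Setup.ray (h : Setup y N K k j₀ M δ ω p q) {j : ℕ} (h1 : j₀ ≤ j) :
    j ≤ k → ∀ x : ℝ, rr N y j ≤ x → x ≤ rr N y j₀ → ∀ l : ℕ,
      p.eval (x * ω ^ l) ≠ 0 ∧
      ‖p.eval (x * ω ^ (l + 1)) - p.eval (x * ω ^ l)‖ ≤ ‖p.eval (x * ω ^ l)‖ / 4 := by
  have hkK := h.hkK
  induction h1 with
  | refl =>
    intro hjk x hx1 hx2 l
    have hx : x = rr N y j₀ := le_antisymm hx2 hx1
    have hx0 : 0 < x := (rr_pos _).trans_le hx1
    have hxn : ‖(x : ℂ) * ω ^ l‖ = x := by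
      rw [norm_mul, norm_pow, h.norm_ω, one_pow, mul_one, Complex.norm_real, Real.norm_of_nonneg hx0.le]
    have hge := h.f_ge le_rfl hjk (v := x * ω ^ l) (by rw [hxn]; exact hx2)
      (by rw [hxn, hx]; exact (RR_lt_rr h.toData (by omega)).le)
    have hne : p.eval (x * ω ^ l) * q.eval (x * ω ^ l) ≠ 0 :=
      norm_pos_iff.1 (lt_of_lt_of_le (by positivity) hge)
    refine ⟨left_ne_zero_of_mul hne, ?_⟩
    have hb := h.base (v := x * ω ^ l) (by rw [hxn, hx]) 1
    rw [pow_one] at hb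
    have e : ω * ((x : ℂ) * ω ^ l) = x * ω ^ (l + 1) := by rw [pow_succ]; ring
    rw [e] at hb
    refine hb.trans ?_
    have := norm_nonneg (p.eval (x * ω ^ l))
    linarith
  | @step i hi ih =>
    intro hik x hx1 hx2 l
    rcases le_total (rr N y i) x with hxi | hxi
    · exact ih (by omega) x hxi hx2 l
    · obtain ⟨hcp, hcq⟩ := h.circ hi (by omega)
      obtain ⟨hz, -⟩ := h.zone hi (by omega) hcp hcq
      have hx0 : 0 < x := (rr_pos _).trans_le hx1
      have hxn : ‖(x : ℂ) * ω ^ l‖ = x := by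
        rw [norm_mul, norm_pow, h.norm_ω, one_pow, mul_one, Complex.norm_real, Real.norm_of_nonneg hx0.le]
      have hge := h.ray_ge hi (by omega) hx1 hxi l
      have hne : p.eval (x * ω ^ l) * q.eval (x * ω ^ l) ≠ 0 :=
        norm_pos_iff.1 (lt_of_lt_of_le (th_pos i) hge)
      refine ⟨left_ne_zero_of_mul hne, ?_⟩
      have hb := hz (x * ω ^ l) (by
        rw [hxn]
        exact (RR_lt_rr h.toData (j := i + 1) (by omega)).le.trans hx1) (by rw [hxn]; exact hxi) hge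
      have e : ω * ((x : ℂ) * ω ^ l) = x * ω ^ (l + 1) := by rw [pow_succ]; ring
      rw [e] at hb
      exact hb

theorem Setup.dvd_nroots (h : Setup y N K k j₀ M δ ω p q) : N k ∣ nroots p (rr N y k) := by
  have hkK := h.hkK
  have hjk := h.hjk
  have hge : ∀ v : ℂ, ‖v‖ = rr N y k → p.eval v * q.eval v ≠ 0 := by
    intro v hv
    have hge := h.f_ge hjk le_rfl hv.le (by rw [hv]; exact (RR_lt_rr h.toData (by omega)).le)
    exact norm_pos_iff.1 (lt_of_lt_of_le (by positivity) hge)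
  obtain ⟨E, hEc, hEp, hE⟩ := exists_log p (rr N y k) (rr_pos k)
    (fun v hv => left_ne_zero_of_mul (hge v hv))
  have hmono : ∀ j, j₀ ≤ j → j ≤ k → rr N y j ≤ rr N y j₀ := by
    intro j hj
    induction hj with
    | refl => intro _; exact le_rfl
    | @step i hi ih =>
      intro hik
      exact (rr_lt_rr h.toData (j := i) (by omega)).le.trans (ih (by omega))
  refine dvd_of_rotation p (N k) (nroots p (rr N y k)) (h.pos (by omega)) (rr N y k) (rr N y j₀)
    (rr_pos k) (hmono k hjk le_rfl) E hEc hEp hE ?_ ?_ ?_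
  · intro v hv
    refine ⟨left_ne_zero_of_mul (hge v hv), ?_⟩
    rw [← h.hω]
    have h1 := (h.circ hjk le_rfl).1 v hv
    refine h1.trans ?_
    have h2 := kp_le k
    have h3 := norm_nonneg (p.eval v)
    nlinarith
  · intro x hx1 hx2 l
    rw [← h.hω]
    exact h.ray hjk le_rfl x hx1 hx2 l
  · intro l
    rw [← h.hω]
    have h1 := h.base (v := ((rr N y j₀ : ℝ) : ℂ)) (by
      rw [Complex.norm_real, Real.norm_of_nonneg (rr_pos _).le]) l
    rw [mul_comm]
    refine h1.trans ?_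
    have h3 := norm_nonneg (p.eval ((rr N y j₀ : ℝ) : ℂ))
    linarith

theorem one_le_nroots (p : ℂ[X]) (hp : p ≠ 0) (hp0 : p.eval 0 = 0) (ρ : ℝ) (hρ : 0 < ρ) :
    1 ≤ nroots p ρ := by
  unfold nroots
  rw [Nat.one_le_iff_ne_zero, Ne, Multiset.card_eq_zero]
  intro h0
  have : (0:ℂ) ∈ p.roots.filter (fun z => ‖z‖ < ρ) := by
    rw [Multiset.mem_filter, mem_roots hp]
    exact ⟨hp0, by simpa using hρ⟩
  rw [h0] at this
  simp at this

theorem Setup.false (h : Setup y N K k j₀ M δ ω p q) : False := by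
  have hkK := h.hkK
  have hjk := h.hjk
  have hd1 := h.dvd_nroots
  have hd2 := h.symm.dvd_nroots
  have hpow : (0 : ℝ) < (1 / 100) ^ k := by positivity
  have hrr := rr_pow_ge h.toData (j := k) (by omega)
  have hsum := nroots_add p q (N k) (rr N y k) (rr_pos k) (((1 / 100 : ℝ) : ℂ) ^ k)
    (pow_ne_zero _ (by norm_num)) (by
      intro v hv
      have h1 := h.fF hjk le_rfl hv.le
      rw [Ft_succ (by omega : k ≤ K)] at h1
      have h2 := Ft_le (N := N) K (k + 1) (v := v) (by rw [hv]; exact rr_le_one _)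
      have h3 := th_le k
      have h4 : p.eval v * q.eval v - ((1 / 100 : ℝ) : ℂ) ^ k * v ^ (N k)
          = (p.eval v * q.eval v - (((1 / 100 : ℝ) : ℂ) ^ k * v ^ (N k) + Ft N K (k + 1) v))
            + Ft N K (k + 1) v := by ring
      rw [h4]
      refine lt_of_le_of_lt (norm_add_le _ _) ?_
      rw [norm_pow, Complex.norm_real, Real.norm_of_nonneg (by norm_num)]
      rw [pow_succ (1 / 100 : ℝ) k] at h2
      nlinarith)
  have hpne : p ≠ 0 ∧ q ≠ 0 := by
    have hge := h.f_ge hjk le_rfl (v := ((rr N y k : ℝ) : ℂ))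
      (by rw [Complex.norm_real, Real.norm_of_nonneg (rr_pos _).le])
      (by rw [Complex.norm_real, Real.norm_of_nonneg (rr_pos _).le]
          exact (RR_lt_rr h.toData (by omega)).le)
    have hne : p.eval ((rr N y k : ℝ) : ℂ) * q.eval ((rr N y k : ℝ) : ℂ) ≠ 0 :=
      norm_pos_iff.1 (lt_of_lt_of_le (by positivity) hge)
    constructor
    · rintro rfl
      simp at hne
    · rintro rfl
      simp at hne
  have h2 := one_le_nroots p hpne.1 h.hp0 (rr N y k) (rr_pos k)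
  have h3 := one_le_nroots q hpne.2 h.hq0 (rr N y k) (rr_pos k)
  have h4 := Nat.le_of_dvd h2 hd1
  have h5 := Nat.le_of_dvd h3 hd2
  have h6 := h.pos (i := k) (by omega)
  omega

end Pool.Agent.L1Q
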