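import Mathlib
import Pool.Agent.L1Q.Contra
set_option autoImplicit false
namespace Pool.Agent.L1Q
open Complex Polynomial

/-- the gaps -/
def yy (j : ℕ) : ℕ := (j + 1) * 10 ^ (400 * 2 ^ j)

/-- the denominators -/
def DD : ℕ → ℕ
  | 0 => 1
  | (j + 1) => DD j * (yy (j + 1)) ^ 2

theorem yy_ge (j : ℕ) : 10 ^ 6 ≤ yy j := by
  unfold yy
  have h1 : 10 ^ 6 ≤ 10 ^ (400 * 2 ^ j) := by
    apply Nat.pow_le_pow_right (by norm_num)
    have := Nat.one_le_two_pow (n := j)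
    omega
  nlinarith

theorem DD_pos (j : ℕ) : 0 < DD j := by
  induction j with
  | zero => exact Nat.one_pos
  | succ j ih =>
    have h1 := yy_ge (j + 1)
    have h2 : 0 < yy (j + 1) := lt_of_lt_of_le (by norm_num) h1
    exact Nat.mul_pos ih (Nat.pow_pos h2)

theorem DD_dvd (j : ℕ) : DD j ∣ DD (j + 1) := ⟨_, rfl⟩

theorem DD_lt (j : ℕ) : DD j < DD (j + 1) := by
  have h1 := yy_ge (j + 1)
  have h2 : 1 < yy (j + 1) := lt_of_lt_of_le (by norm_num) h1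
  have h3 := DD_pos j
  change DD j < DD j * (yy (j + 1)) ^ 2
  have h4 : 1 < (yy (j + 1)) ^ 2 := Nat.one_lt_pow (by norm_num) h2
  nlinarith

theorem DD_dvd_of_le {i j : ℕ} (h : i ≤ j) : DD i ∣ DD j := by
  induction h with
  | refl => exact dvd_refl _
  | step _ ih => exact ih.trans (DD_dvd _)

theorem DD_all (m k : ℕ) (hm : 0 < m) (hmk : m ≤ k) : m ∣ DD k := by
  rcases Nat.lt_or_ge m 2 with h | h
  · have : m = 1 := by omega
    subst this
    exact one_dvd _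
  · obtain ⟨i, rfl⟩ : ∃ i, m = i + 2 := ⟨m - 2, by omega⟩
    refine Dvd.dvd.trans ?_ (DD_dvd_of_le (i := i + 1) (by omega))
    change i + 2 ∣ DD i * (yy (i + 1)) ^ 2
    refine Dvd.dvd.mul_left ?_ _
    refine Dvd.dvd.trans ?_ (dvd_pow_self _ (by norm_num))
    unfold yy
    exact Dvd.intro _ rfl

theorem yy_th (j : ℕ) : (1 : ℝ) / yy j ≤ th j / (1000 * (j + 1)) := by
  have hy : (0 : ℝ) < yy j := by
    have := yy_ge j
    have : 0 < yy j := lt_of_lt_of_le (by norm_num) this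
    exact_mod_cast this
  rw [div_le_div_iff₀ hy (by positivity)]
  unfold th yy
  push_cast
  have h1 : (1 / 100 : ℝ) ^ (j + 2) = 1 / 10 ^ (2 * (j + 2)) := by
    rw [pow_mul, one_div, one_div, inv_pow]; norm_num
  have h2 : (1 / 10 ^ 6 : ℝ) ^ (48 * 2 ^ j) = 1 / 10 ^ (6 * (48 * 2 ^ j)) := by
    rw [one_div_pow, ← pow_mul]
  rw [h1, h2]
  have h3 : (10 : ℝ) ^ (2 * (j + 2)) * 10 ^ (6 * (48 * 2 ^ j)) * 1000 ≤ 10 ^ (400 * 2 ^ j) := by
    have e1 : (1000 : ℝ) = 10 ^ 3 := by norm_num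
    rw [e1, ← pow_add, ← pow_add]
    apply pow_le_pow_right₀ (by norm_num)
    have : j < 2 ^ j := Nat.lt_two_pow_self
    omega
  have h4 : (0 : ℝ) < 10 ^ (2 * (j + 2)) * 10 ^ (6 * (48 * 2 ^ j)) := by positivity
  rw [one_mul]
  have h5 : (1 : ℝ) / 10 ^ (2 * (j + 2)) * (1 / 10 ^ (6 * (48 * 2 ^ j))) * (((j : ℝ) + 1) * 10 ^ (400 * 2 ^ j))
      = (((j : ℝ) + 1) * 10 ^ (400 * 2 ^ j)) / (10 ^ (2 * (j + 2)) * 10 ^ (6 * (48 * 2 ^ j))) := by
    field_simp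
  rw [h5, le_div_iff₀ h4]
  have h6 : (0 : ℝ) < (j : ℝ) + 1 := by positivity
  calc 1000 * ((j : ℝ) + 1) * (10 ^ (2 * (j + 2)) * 10 ^ (6 * (48 * 2 ^ j)))
      = ((j : ℝ) + 1) * (10 ^ (2 * (j + 2)) * 10 ^ (6 * (48 * 2 ^ j)) * 1000) := by ring
    _ ≤ ((j : ℝ) + 1) * 10 ^ (400 * 2 ^ j) := by gcongr

theorem DD_data (K : ℕ) : Data yy (fun i => DD K / DD i) K := by
  refine ⟨yy_ge, yy_th, ?_, ?_⟩
  · exact (Nat.div_self (DD_pos K)).ge
  · intro i hi
    obtain ⟨d, hd⟩ := DD_dvd_of_le (i := i + 1) (j := K) (by omega)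
    have h1 : DD K / DD (i + 1) = d := by
      rw [hd]; exact Nat.mul_div_cancel_left _ (DD_pos _)
    have h2 : DD K / DD i = (yy (i + 1)) ^ 2 * d := by
      rw [hd]
      change DD i * (yy (i + 1)) ^ 2 * d / DD i = _
      rw [mul_assoc]; exact Nat.mul_div_cancel_left _ (DD_pos _)
    change DD K / DD i = DD K / DD (i + 1) * (yy (i + 1)) ^ 2
    rw [h1, h2, mul_comm]

/-- The explicit element. -/
noncomputable def f₀ : ℚ → ℂ := fD DD (1 / 100)

/-- Main theorem: `f₀` is not a product, even in the truncated algebra. -/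
theorem no_factor (g h : ℚ → ℂ)
    (hg0 : ∀ q : ℚ, q ≤ 0 → g q = 0) (hh0 : ∀ q : ℚ, q ≤ 0 → h q = 0)
    (hgs : Summable fun q : ℚ => ‖g q‖) (hhs : Summable fun q : ℚ => ‖h q‖)
    (hgh : ∀ t : ℚ, t ≤ 1 → ∑' r : ℚ, g r * h (t - r) = f₀ t) : False := by
  set M : ℝ := max 1 (max (∑' q : ℚ, ‖g q‖) (∑' q : ℚ, ‖h q‖)) with hM
  have hM1 : 1 ≤ M := le_max_left _ _
  have hgM : ∑' q : ℚ, ‖g q‖ ≤ M := (le_max_left _ _).trans (le_max_right _ _)
  have hhM : ∑' q : ℚ, ‖h q‖ ≤ M := (le_max_right _ _).trans (le_max_right _ _)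
  set j₀ : ℕ := max 1 ⌈M ^ 2⌉₊ with hj₀
  have hj1 : 1 ≤ j₀ := le_max_left _ _
  have hMj : M ^ 2 ≤ (j₀ : ℝ) + 1 := by
    have h1 : M ^ 2 ≤ (⌈M ^ 2⌉₊ : ℝ) := Nat.le_ceil _
    have h2 : (⌈M ^ 2⌉₊ : ℝ) ≤ (j₀ : ℝ) := by exact_mod_cast le_max_right _ _
    linarith
  have hε : 0 < (1 / 100 : ℝ) ^ j₀ * (35 / 100) / (10 ^ 6 * M) := by positivity
  obtain ⟨k₀, hk₀⟩ := reduction DD rfl DD_dvd DD_lt DD_all (1 / 100) (by norm_num) (by norm_num) g h
    hg0 hh0 hgs hhs M hgM hhM hgh _ hε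
  obtain ⟨K, hkK, p, q, hp0, hq0, hbd, hrot, hF⟩ := hk₀ (max k₀ j₀) (le_max_left _ _)
    (th (max k₀ j₀) / 1000) (by have := th_pos (max k₀ j₀); positivity)
  have hS : Setup yy (fun i => DD K / DD i) K (max k₀ j₀) j₀ M (th (max k₀ j₀) / 1000)
      (exp (2 * Real.pi * I / (DD K / DD (max k₀ j₀) : ℕ))) p q :=
    { toData := DD_data K
      hj₀ := hj1
      hjk := le_max_right _ _
      hkK := hkK
      hM1 := hM1
      hMj := hMj
      hδ := le_rfl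
      hω := rfl
      hp0 := hp0
      hq0 := hq0
      hbd := hbd
      hrot := hrot
      hF := by
        intro v hv
        have h1 := hF v hv
        have h2 : Ft (fun i => DD K / DD i) K 0 v
            = ∑ i ∈ Finset.range (K + 1), (((1 / 100 : ℝ) : ℝ) : ℂ) ^ i * v ^ (DD K / DD i) := by
          unfold Ft
          rw [Finset.range_eq_Ico]
        rw [h2]
        have h3 : DD K / DD 0 = DD K := Nat.div_one _
        simp only [h3]
        exact h1 }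
  exact hS.false

theorem f₀_zero (q : ℚ) (hq : q ∉ Set.range (fun i : ℕ => 1 / (DD i : ℚ))) : f₀ q = 0 := by
  unfold f₀ fD
  have : ∀ i : ℕ, (if q = 1 / (DD i : ℚ) then (((1 / 100 : ℝ) : ℝ) : ℂ) ^ i else 0) = 0 := by
    intro i
    rw [if_neg]
    intro h
    exact hq ⟨i, h.symm⟩
  simp only [this, tsum_zero]

theorem DD_inj : Function.Injective (fun i : ℕ => 1 / (DD i : ℚ)) := by
  have h1 : StrictMono DD := strictMono_nat_of_lt_succ DD_lt
  intro i j hij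
  have h2 : (DD i : ℚ) ≠ 0 := by exact_mod_cast (DD_pos i).ne'
  have h3 : (DD j : ℚ) ≠ 0 := by exact_mod_cast (DD_pos j).ne'
  have h4 : (DD i : ℚ) = DD j := by
    simp only [one_div] at hij
    exact inv_injective hij
  exact h1.injective (by exact_mod_cast h4)

theorem f₀_at (i : ℕ) : f₀ (1 / (DD i : ℚ)) = (((1 / 100 : ℝ) : ℝ) : ℂ) ^ i := by
  unfold f₀ fD
  rw [tsum_eq_single i]
  · rw [if_pos rfl]
  · intro j hj
    rw [if_neg]
    intro h
    exact hj (DD_inj h).symm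

theorem f₀_nonpos (q : ℚ) (hq : q ≤ 0) : f₀ q = 0 := by
  apply f₀_zero
  rintro ⟨i, hi⟩
  have h2 : (0 : ℚ) < DD i := by exact_mod_cast DD_pos i
  have : (0 : ℚ) < 1 / (DD i : ℚ) := by positivity
  simp only at hi
  rw [hi] at this
  linarith

theorem f₀_gt_one (q : ℚ) (hq : 1 < q) : f₀ q = 0 := by
  apply f₀_zero
  rintro ⟨i, hi⟩
  have h2 : (1 : ℚ) ≤ DD i := by exact_mod_cast DD_pos i
  have h3 : 1 / (DD i : ℚ) ≤ 1 := by
    rw [div_le_one (by linarith)]; exact h2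
  simp only at hi
  rw [hi] at h3
  linarith

theorem f₀_summable : Summable fun q : ℚ => ‖f₀ q‖ := by
  rw [← DD_inj.summable_iff (f := fun q : ℚ => ‖f₀ q‖)]
  · have : ((fun q : ℚ => ‖f₀ q‖) ∘ fun i : ℕ => 1 / (DD i : ℚ)) = fun i : ℕ => (1 / 100 : ℝ) ^ i := by
      funext i
      simp only [Function.comp]
      rw [f₀_at, norm_pow, Complex.norm_real, Real.norm_of_nonneg (by norm_num)]
    rw [this]
    exact summable_geometric_of_lt_one (by norm_num) (by norm_num)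
  · intro q hq
    rw [f₀_zero q hq, norm_zero]

end Pool.Agent.L1Q
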